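import Pool.Agent.K4H6.Win.Tl

set_option autoImplicit false

/-! Multiplicities in short windows: from one length to all larger lengths, integrated form. -/

namespace Pool.Agent.K4H6.Win

open Filter Topology MeasureTheory Complex H370

noncomputable section

lemma Sm_bdd (f : ℕ → ℝ) (U1 U2 r : ℝ) : ∃ C : ℝ, ∀ t : ℝ, |Sm f U1 U2 r t| ≤ C := by
  refine ⟨∑ s ∈ Zf riemannZeta U1 U2, |f (mult riemannZeta s)|, fun t => ?_⟩
  unfold Sm
  refine (Finset.abs_sum_le_sum_abs _ _).trans (Finset.sum_le_sum fun s _ => ?_)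
  split_ifs
  · exact le_rfl
  · rw [abs_zero]; exact abs_nonneg _

lemma prod_int {F : ℝ → ℝ} (hF : Measurable F) {C : ℝ} (hb : ∀ u, |F u| ≤ C) {S : Set ℝ} (hSf : volume S ≠ ⊤)
    (a b : ℝ) : Integrable (Function.uncurry fun t x : ℝ => F (t + x))
      ((volume.restrict S).prod (volume.restrict (Set.Ioc a b))) := by
  have hfin : IsFiniteMeasure (volume.restrict S) := ⟨by
    rw [Measure.restrict_apply_univ]; exact lt_top_iff_ne_top.2 hSf⟩
  refine Integrable.of_bound (C := C) ?_ ?_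
  · exact (hF.comp (measurable_fst.add measurable_snd)).aestronglyMeasurable
  · exact Filter.Eventually.of_forall fun p => hb _

lemma swapS {F : ℝ → ℝ} (hF : Measurable F) {C : ℝ} (hb : ∀ u, |F u| ≤ C) {S : Set ℝ} (hSf : volume S ≠ ⊤)
    {a b : ℝ} (hab : a ≤ b) : ∫ t in S, (∫ x in a..b, F (t + x)) = ∫ x in a..b, ∫ t in S, F (t + x) := by
  have hfin : IsFiniteMeasure (volume.restrict S) := ⟨by
    rw [Measure.restrict_apply_univ]; exact lt_top_iff_ne_top.2 hSf⟩
  rw [intervalIntegral.integral_of_le hab]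
  simp_rw [intervalIntegral.integral_of_le hab]
  exact integral_integral_swap (prod_int hF hb hSf a b)

lemma shiftS (F : ℝ → ℝ) (S : Set ℝ) (x : ℝ) :
    ∫ t in S, F (t + x) = ∫ u in ((fun u => u - x) ⁻¹' S), F u := by
  have h := (measurePreserving_add_right volume x).setIntegral_preimage_emb
    (MeasurableEquiv.addRight x).measurableEmbedding F ((fun u => u - x) ⁻¹' S)
  have e : (fun t : ℝ => t + x) ⁻¹' ((fun u => u - x) ⁻¹' S) = S := by
    ext t
    simp
  rw [e] at h
  exact h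

lemma shift_vol (S : Set ℝ) (x : ℝ) : volume.real ((fun u : ℝ => u - x) ⁻¹' S) = volume.real S := by
  unfold Measure.real
  simp_rw [sub_eq_add_neg]
  rw [measure_preimage_add_right]

lemma shift_meas {S : Set ℝ} (hS : MeasurableSet S) (x : ℝ) : MeasurableSet ((fun u : ℝ => u - x) ⁻¹' S) :=
  (measurable_id.sub_const x) hS

/-- the integral of all shifts -/
lemma all_shift {F : ℝ → ℝ} (hF : Measurable F) {C : ℝ} (hb : ∀ u, |F u| ≤ C) {S : Set ℝ} (hS : MeasurableSet S)
    (hSf : volume S ≠ ⊤) {a b c d T1 T2 A : ℝ} (hab : a ≤ b)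
    (hA : ∀ S' : Set ℝ, MeasurableSet S' → S' ⊆ Set.Icc T1 T2 → volume.real S' = volume.real S →
      ∫ t in S', F t ≤ A) (hSI : S ⊆ Set.Icc c d) (h1 : T1 ≤ c + a) (h2 : d + b ≤ T2) :
    ∫ t in S, (∫ x in a..b, F (t + x)) ≤ (b - a) * A := by
  have hfin : IsFiniteMeasure (volume.restrict S) := ⟨by
    rw [Measure.restrict_apply_univ]; exact lt_top_iff_ne_top.2 hSf⟩
  rw [swapS hF hb hSf hab]
  have h3 : ∀ x ∈ Set.Icc a b, ∫ t in S, F (t + x) ≤ A := by
    intro x hx
    rw [shiftS]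
    refine hA _ (shift_meas hS x) ?_ (shift_vol S x)
    intro u hu
    have h4 := hSI hu
    beta_reduce at h4
    constructor <;> linarith [h4.1, h4.2, hx.1, hx.2]
  have h5 : IntervalIntegrable (fun x => ∫ t in S, F (t + x)) volume a b := by
    rw [intervalIntegrable_iff_integrableOn_Ioc_of_le hab]
    exact (prod_int hF hb hSf a b).integral_prod_right
  have h6 := intervalIntegral.integral_mono_on hab h5 (intervalIntegrable_const (c := A)) h3
  rw [intervalIntegral.integral_const, smul_eq_mul] at h6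
  exact h6

lemma inner_int {F : ℝ → ℝ} (hF : Measurable F) {C : ℝ} (hb : ∀ u, |F u| ≤ C) {S : Set ℝ} (hSf : volume S ≠ ⊤)
    {a b : ℝ} (hab : a ≤ b) : IntegrableOn (fun t => ∫ x in a..b, F (t + x)) S := by
  have hfin : IsFiniteMeasure (volume.restrict S) := ⟨by
    rw [Measure.restrict_apply_univ]; exact lt_top_iff_ne_top.2 hSf⟩
  simp_rw [intervalIntegral.integral_of_le hab]
  exact (prod_int hF hb hSf a b).integral_prod_left

lemma F_ii {F : ℝ → ℝ} (hF : Measurable F) {C : ℝ} (hb : ∀ u, |F u| ≤ C) (t a b : ℝ) :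
    IntervalIntegrable (fun x => F (t + x)) volume a b := by
  have h1 : IntervalIntegrable (fun _ : ℝ => C) volume a b := intervalIntegrable_const
  refine h1.mono_fun ((hF.comp (measurable_const.add measurable_id)).aestronglyMeasurable)
    (Filter.Eventually.of_forall fun x => ?_)
  have h2 := hb (t + x)
  beta_reduce
  rw [Real.norm_eq_abs, Real.norm_eq_abs]
  exact h2.trans (le_abs_self C)

/-- the upper bound for long sums -/
lemma long_C {f : ℕ → ℝ} (hf : ∀ m, 0 ≤ f m) {U1 U2 H r A T1 T2 c d : ℝ} (hr : 0 < r) (hH : 0 ≤ H) {S : Set ℝ}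
    (hS : MeasurableSet S) (hSI : S ⊆ Set.Icc c d)
    (hA : ∀ S' : Set ℝ, MeasurableSet S' → S' ⊆ Set.Icc T1 T2 → volume.real S' = volume.real S →
      ∫ t in S', Sm f U1 U2 r t ≤ A) (h1 : T1 ≤ c - 2 * r) (h2 : d + H + r ≤ T2) :
    2 * r * ∫ t in S, Gm f U1 U2 H t ≤ (H + 3 * r) * A := by
  have hSf : volume S ≠ ⊤ := ne_top_of_le_ne_top (by simp) (measure_mono hSI)
  obtain ⟨C, hC⟩ := Sm_bdd f U1 U2 r
  have hm := Sm_meas f U1 U2 r
  have hab : -r - r ≤ H + r := by linarith
  have h3 := all_shift hm hC hS hSf (a := -r - r) (b := H + r) hab hA hSI (by linarith) (by linarith)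
  have h4 : ∫ t in S, 2 * r * Gm f U1 U2 H t ≤ ∫ t in S, ∫ x in (-r - r)..(H + r), Sm f U1 U2 r (t + x) :=
    setIntegral_mono_on ((Gm_int f U1 U2 H hSf).const_mul _) (inner_int hm hC hSf hab) hS
      (fun t _ => Gm_le hf hr hH)
  rw [integral_const_mul] at h4
  refine h4.trans (h3.trans (le_of_eq ?_))
  ring

/-- the number of zeros for long windows -/
lemma long_N {U1 U2 H r A M T1 T2 c d : ℝ} (hr : 0 < r) (hH : 2 * r ≤ H) (hM : 0 ≤ M) {S : Set ℝ}
    (hS : MeasurableSet S) (hSI : S ⊆ Set.Icc c d)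
    (hA : ∀ S' : Set ℝ, MeasurableSet S' → S' ⊆ Set.Icc T1 T2 → volume.real S' = volume.real S →
      ∫ t in S', |Sm (fun m => m) U1 U2 r t - M| ≤ A) (h1 : T1 ≤ c - 2 * r) (h2 : d + H + r ≤ T2) :
    ∫ t in S, |2 * r * Gm (fun m => m) U1 U2 H t - H * M| ≤ volume.real S * (3 * r * M) + (H + 3 * r) * A := by
  have hSf : volume S ≠ ⊤ := ne_top_of_le_ne_top (by simp) (measure_mono hSI)
  obtain ⟨C, hC⟩ := Sm_bdd (fun m => (m:ℝ)) U1 U2 r
  have hm := Sm_meas (fun m => (m:ℝ)) U1 U2 r
  obtain ⟨F, hFd⟩ : ∃ F : ℝ → ℝ, F = fun t => |Sm (fun m => (m:ℝ)) U1 U2 r t - M| := ⟨_, rfl⟩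
  have hFm : Measurable F := by
    rw [hFd]
    exact (hm.sub_const M).abs
  have hFC : ∀ u, |F u| ≤ C + |M| := by
    intro u
    rw [hFd]
    beta_reduce
    rw [abs_abs]
    exact (abs_sub _ _).trans (add_le_add (hC u) le_rfl)
  have hF0 : ∀ u, 0 ≤ F u := fun u => by rw [hFd]; exact abs_nonneg _
  have hab : -r - r ≤ H + r := by linarith
  have h3 := all_shift hFm hFC hS hSf (a := -r - r) (b := H + r) hab (by rw [hFd]; exact hA) hSI (by linarith)
    (by linarith)
  have hpt : ∀ t ∈ S, |2 * r * Gm (fun m => (m:ℝ)) U1 U2 H t - H * M| ≤ 3 * r * M +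
      ∫ x in (-r - r)..(H + r), F (t + x) := by
    intro t _
    have u1 := Gm_le (f := fun m => (m:ℝ)) (fun m => Nat.cast_nonneg m) (U1 := U1) (U2 := U2) (H := H) (t := t) hr
      (by linarith)
    have u2 := le_Gm (f := fun m => (m:ℝ)) (fun m => Nat.cast_nonneg m) (U1 := U1) (U2 := U2) (H := H) (t := t) hr hH
    have i1 := F_ii hm hC t (-r - r) (H + r)
    have i2 := F_ii hm hC t r (H - r)
    have i3 := F_ii hFm hFC t (-r - r) (H + r)
    have i4 := F_ii hFm hFC t r (H - r)
    have w1 : ∫ x in (-r - r)..(H + r), Sm (fun m => (m:ℝ)) U1 U2 r (t + x) ≤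
        ∫ x in (-r - r)..(H + r), (M + F (t + x)) := by
      refine intervalIntegral.integral_mono_on hab i1 (intervalIntegrable_const.add i3) fun x _ => ?_
      rw [hFd]
      linarith [le_abs_self (Sm (fun m => (m:ℝ)) U1 U2 r (t + x) - M)]
    have w2 : ∫ x in r..(H - r), (M - F (t + x)) ≤ ∫ x in r..(H - r), Sm (fun m => (m:ℝ)) U1 U2 r (t + x) := by
      refine intervalIntegral.integral_mono_on (by linarith) (intervalIntegrable_const.sub i4) i2 fun x _ => ?_
      rw [hFd]
      linarith [neg_abs_le (Sm (fun m => (m:ℝ)) U1 U2 r (t + x) - M)]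
    rw [intervalIntegral.integral_add intervalIntegrable_const i3, intervalIntegral.integral_const, smul_eq_mul] at w1
    rw [intervalIntegral.integral_sub intervalIntegrable_const i4, intervalIntegral.integral_const, smul_eq_mul] at w2
    have w3 : ∫ x in r..(H - r), F (t + x) ≤ ∫ x in (-r - r)..(H + r), F (t + x) := by
      refine intervalIntegral.integral_mono_interval (by linarith) (by linarith) (by linarith) ?_ i3
      exact Filter.Eventually.of_forall fun x => hF0 _
    rw [abs_le]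
    have hrM : 0 ≤ r * M := mul_nonneg hr.le hM
    constructor
    · linarith
    · linarith
  have hc : IntegrableOn (fun _ : ℝ => 3 * r * M) S := integrableOn_const hSf
  have hl : IntegrableOn (fun t => |2 * r * Gm (fun m => (m:ℝ)) U1 U2 H t - H * M|) S :=
    (((Gm_int _ U1 U2 H hSf).const_mul _).sub (integrableOn_const hSf)).abs
  have h4 := setIntegral_mono_on (μ := volume) (s := S)
    (f := fun t => |2 * r * Gm (fun m => (m:ℝ)) U1 U2 H t - H * M|)
    (g := fun t => 3 * r * M + ∫ x in (-r - r)..(H + r), F (t + x)) hl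
    (hc.add (inner_int hFm hFC hSf hab)) hS hpt
  rw [integral_add hc (inner_int hFm hFC hSf hab), setIntegral_const, smul_eq_mul] at h4
  refine h4.trans ?_
  have e : H + r - (-r - r) = H + 3 * r := by ring
  rw [e] at h3
  linarith

end

end Pool.Agent.K4H6.Win
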