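import Pool.Agent.K4H6.Win.Bk

set_option autoImplicit false

/-! Multiplicities in short windows: a quantity bounded by the pair sum, integrated over a set. -/

namespace Pool.Agent.K4H6.Win

open Filter Topology MeasureTheory Complex H370 TH803UC TH803CL Pool.Agent.Y745.SW Pool.Agent.K4H6.Cov

noncomputable section

section

variable {B : ℝ → ℝ} {c : ℕ → ℂ} {ε τ η K T U1 U2 : ℝ}

/-- a quantity bounded by the pair sum, integrated over a set -/
lemma blockG {kt : ℂ → ℂ} {R : ℝ → ℝ} (hk0 : Ker kt R) (hMN : P_MN) {j : ℕ} {C N : ℝ}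
    (hW : Wf j C N B) (hK : 0 < K) (hε : 0 < ε) (hε2 : ε < 1 / 2) (hτ : 0 < τ)
    (hτε : τ ≤ ε / 4) (hη : 0 < η) {L CS : ℝ} (hLd : L = Real.log T) (hL : 10 ≤ L)
    (hT : T + L ≤ 2 * T - L)
    (hEF : ∀ t u : ℝ, T + L ≤ t → t ≤ 2 * T - L → 0 ≤ u → u ≤ (1 - ε) * L →
      ‖St B (τ * L) U1 U2 u t - cexp (I * u * t) * ((Mu B (τ * L) L u : ℝ) -
        DPp c B (τ * L) u (XT ε T) t - DPm c B (τ * L) u (XT ε T) t)‖ ≤ 1 / 2)
    (hMs : ∀ u : ℝ, 2 * (τ * L) ≤ u → |Mu B (τ * L) L u| ≤ 1 / 2) (hCS : 0 < CS)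
    (hSM : ∀ u : ℝ, 0 ≤ u → u ≤ (1 - ε) * L →
      ∫ t in (T + L)..(2 * T - L), ‖St B (τ * L) U1 U2 u t - cexp (I * u * t) * (Mu B (τ * L) L u : ℝ)‖ ^ 2 ≤
      CS * K ^ 2 * (T * (1 + u / (τ * L))))
    {S : Set ℝ} (hS : MeasurableSet S) (hSI : S ⊆ Set.Icc (T + L) (2 * T - L)) {X : ℝ → ℝ} (hX : IntegrableOn X S)
    (hXp : ∀ t ∈ S, X t ≤ 2 * ∫ x in (0:ℝ)..1, R x * ‖St B (τ * L) U1 U2 ((1 - ε) * L * x) t‖ ^ 2) :
    ∫ t in S, X t ≤
      volume.real S * ((1 + η) * (R 0 / ((1 - ε) * τ) * ∫ ξ in (-1:ℝ)..1, B ξ ^ 2) +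
      (1 + 1 / η) * (2 * R 0)) + (1 + 1 / η) * (2 * R 0) * (20 * τ * (CS * K ^ 2 * T)) +
      (1 + η) * (∫ t in S, Dq R c B ε τ (4 * τ) T t) := by
  classical
  have hL0 : 0 < L := by linarith
  have hτL : 0 < τ * L := mul_pos hτ hL0
  have hT0 : 0 < T := by linarith
  have h4τ : 4 * τ ≤ 1 := by linarith
  have h4τ0 : 0 ≤ 4 * τ := by linarith
  have hSf : volume S ≠ ⊤ := ne_top_of_le_ne_top (by simp) (measure_mono hSI)
  -- the functions
  set g2 : ℝ → ℝ := fun t => ∫ x in (0:ℝ)..(4 * τ), Gd B (τ * L) L U1 U2 ((1 - ε) * L * x) t with hg2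
  have hGc2 : Continuous (Function.uncurry fun t x : ℝ => Gd B (τ * L) L U1 U2 ((1 - ε) * L * x) t) := by
    exact (Gd_cont hW.cont (τ * L) L U1 U2).comp (f := fun p : ℝ × ℝ => ((1 - ε) * L * p.2, p.1)) (by fun_prop)
  have hg2c : Continuous g2 := by
    apply intervalIntegral.continuous_parametric_intervalIntegral_of_continuous'
    exact hGc2
  have hDc : Continuous (fun t : ℝ => Dq R c B ε τ (4 * τ) T t) :=
    Dq_cont hW.cont hε hε2 hτ hτε le_rfl h4τ hk0.rcont (by rw [← hLd]; exact hL0)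
  set Mb := R 0 / ((1 - ε) * τ) * ∫ ξ in (-1:ℝ)..1, B ξ ^ 2 with hMb
  set q := (1 + 1 / η) * (2 * R 0) with hq
  have hq0 : 0 ≤ q := mul_nonneg (by positivity) (mul_nonneg (by norm_num) (hk0.rnonneg 0))
  -- the pointwise inequality
  have hpt : ∀ t ∈ S, X t ≤ ((1 + η) * Mb + q) + q * g2 t +
      (1 + η) * Dq R c B ε τ (4 * τ) T t := by
    intro t ht
    obtain ⟨ht1, ht2⟩ := hSI ht
    have h1 := hXp t ht
    have h2 := pair_termK (R := R) (kt := kt) hk0 (B := B) (c := c) (ε := ε) (τ := τ) (η := η) (T := T) (U1 := U1)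
      (U2 := U2) hW.cont hMN
      hW.even hε hε2 hτ hτε hη (by rw [← hLd]; exact hL0) (t := t)
      (by rw [← hLd]; exact fun u h3 h4 => hEF t u ht1 ht2 h3 h4)
      (by rw [← hLd]; exact hMs)
    rw [← hLd] at h2
    have h4 : q * g2 t = (1 + 1 / η) * (2 * R 0 * g2 t) := by rw [hq]; ring
    rw [h4]
    simp only [hg2, hq]
    linarith
  -- integration
  have hfin : IsFiniteMeasure (volume.restrict S) := ⟨by
    rw [Measure.restrict_apply_univ]; exact lt_top_iff_ne_top.2 hSf⟩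
  have hcI : ∀ f : ℝ → ℝ, Continuous f → IntegrableOn f S := fun f hf =>
    (hf.continuousOn.integrableOn_compact isCompact_Icc).mono_set hSI
  have hI1 : IntegrableOn (fun _ : ℝ => ((1 + η) * Mb + q)) S := hcI _ continuous_const
  have hI2 : IntegrableOn (fun t : ℝ => q * g2 t) S := hcI _ (by fun_prop)
  have hI3 : IntegrableOn (fun t : ℝ => (1 + η) * Dq R c B ε τ (4 * τ) T t) S := hcI _ (by fun_prop)
  have hI12 : IntegrableOn (fun t : ℝ => ((1 + η) * Mb + q) + q * g2 t) S := hI1.add hI2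
  have hI123 : IntegrableOn (fun t : ℝ => ((1 + η) * Mb + q) + q * g2 t +
      (1 + η) * Dq R c B ε τ (4 * τ) T t) S := hI12.add hI3
  have hmono := setIntegral_mono_on (μ := volume) (s := S)
    (f := fun t => X t)
    (g := fun t => ((1 + η) * Mb + q) + q * g2 t + (1 + η) * Dq R c B ε τ (4 * τ) T t)
    hX hI123 hS hpt
  rw [integral_add hI12 hI3, integral_add hI1 hI2,
    setIntegral_const, integral_const_mul, integral_const_mul, smul_eq_mul] at hmono
  have hb2 : ∫ t in S, g2 t ≤ 20 * τ * (CS * K ^ 2 * T) := by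
    have hg20 : ∀ t, 0 ≤ g2 t := fun t => intervalIntegral.integral_nonneg h4τ0 fun x _ => by
      unfold Gd; positivity
    have h1 : ∫ t in S, g2 t ≤ ∫ t in Set.Icc (T + L) (2 * T - L), g2 t :=
      setIntegral_mono_set (hg2c.continuousOn.integrableOn_compact isCompact_Icc)
        (Filter.Eventually.of_forall hg20) (Filter.Eventually.of_forall hSI)
    have h2 : ∫ t in Set.Icc (T + L) (2 * T - L), g2 t =
        ∫ x in (0:ℝ)..(4 * τ), ∫ t in (T + L)..(2 * T - L), Gd B (τ * L) L U1 U2 ((1 - ε) * L * x) t := by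
      rw [integral_Icc_eq_integral_Ioc, ← intervalIntegral.integral_of_le hT]
      refine MeasureTheory.intervalIntegral_intervalIntegral_swap ?_
      refine (hGc2.continuousOn.integrableOn_compact (K := Set.uIcc (T + L) (2 * T - L) ×ˢ Set.uIcc 0 (4 * τ)) ?_).mono_set ?_
      · exact isCompact_uIcc.prod isCompact_uIcc
      · exact Set.prod_mono Set.uIoc_subset_uIcc Set.uIoc_subset_uIcc
    have h3 : ∫ x in (0:ℝ)..(4 * τ), ∫ t in (T + L)..(2 * T - L), Gd B (τ * L) L U1 U2 ((1 - ε) * L * x) t ≤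
        ∫ _x in (0:ℝ)..(4 * τ), 5 * (CS * K ^ 2 * T) := by
      refine intervalIntegral.integral_mono_on h4τ0 ?_ (by simp) fun x hx => ?_
      · refine Continuous.intervalIntegrable ?_ _ _
        apply intervalIntegral.continuous_parametric_intervalIntegral_of_continuous'
        exact (Gd_cont hW.cont (τ * L) L U1 U2).comp (f := fun p : ℝ × ℝ => ((1 - ε) * L * p.1, p.2)) (by fun_prop)
      · have hx1 : x ≤ 1 := hx.2.trans h4τ
        have hΛ : 0 ≤ (1 - ε) * L := mul_nonneg (by linarith) hL0.le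
        have h4 := hSM ((1 - ε) * L * x) (mul_nonneg hΛ hx.1) (by
          calc (1 - ε) * L * x ≤ (1 - ε) * L * 1 := mul_le_mul_of_nonneg_left hx1 hΛ
            _ = _ := mul_one _)
        refine h4.trans ?_
        have h5 : (1 - ε) * L * x / (τ * L) ≤ 4 := by
          rw [div_le_iff₀ hτL]
          have h6 : (1 - ε) * L * x ≤ 1 * L * (4 * τ) := by
            have := hx.2
            have := hx.1
            gcongr
            linarith
          linarith
        have h6 : T * (1 + (1 - ε) * L * x / (τ * L)) ≤ T * 5 :=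
          mul_le_mul_of_nonneg_left (by linarith) hT0.le
        calc CS * K ^ 2 * (T * (1 + (1 - ε) * L * x / (τ * L))) ≤ CS * K ^ 2 * (T * 5) :=
              mul_le_mul_of_nonneg_left h6 (by positivity)
          _ = _ := by ring
    rw [intervalIntegral.integral_const, smul_eq_mul, sub_zero] at h3
    rw [h2] at h1
    refine h1.trans (h3.trans (le_of_eq ?_))
    ring
  have hc2 : q * ∫ t in S, g2 t ≤ q * (20 * τ * (CS * K ^ 2 * T)) := mul_le_mul_of_nonneg_left hb2 hq0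
  linarith

end

end

end Pool.Agent.K4H6.Win
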