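import Pool.Agent.K4H6.Win.Pw
import Pool.Agent.K4H6.Cov.Blk

set_option autoImplicit false

/-! Multiplicities in short windows: the inequalities integrated over a set. -/

namespace Pool.Agent.K4H6.Win

open Filter Topology MeasureTheory Complex H370 TH803UC TH803CL Pool.Agent.Y745.SW Pool.Agent.K4H6.Cov

noncomputable section

lemma Sm_int (f : ℕ → ℝ) (U1 U2 r : ℝ) {S : Set ℝ} (hSf : volume S ≠ ⊤) :
    IntegrableOn (fun t : ℝ => Sm f U1 U2 r t) S := by
  unfold Sm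
  refine integrable_finsetSum _ fun s _ => ?_
  have hm : MeasurableSet {t : ℝ | |s.im - t| ≤ r} := (isClosed_le (by fun_prop) continuous_const).measurableSet
  have h1 : IntegrableOn (fun _ : ℝ => f (mult riemannZeta s)) S := integrableOn_const hSf
  have h2 := h1.indicator hm
  refine h2.congr (Filter.Eventually.of_forall fun t => ?_)
  beta_reduce
  by_cases h : |s.im - t| ≤ r
  · rw [if_pos h, Set.indicator_of_mem (by exact h)]
  · rw [if_neg h, Set.indicator_of_notMem (by exact h)]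

lemma Sm_meas (f : ℕ → ℝ) (U1 U2 r : ℝ) : Measurable (fun t : ℝ => Sm f U1 U2 r t) := by
  unfold Sm
  refine Finset.measurable_sum _ fun s _ => ?_
  have hm : MeasurableSet {t : ℝ | |s.im - t| ≤ r} := (isClosed_le (by fun_prop) continuous_const).measurableSet
  exact Measurable.ite hm measurable_const measurable_const

section

variable {B : ℝ → ℝ} {c : ℕ → ℂ} {ε τ η K T U1 U2 : ℝ}

lemma Er_int (hB : Continuous B) (a N N0 κ1 Y0 L U1 U2 t1 t2 : ℝ) :
    IntegrableOn (fun t : ℝ => Er B a N N0 κ1 Y0 L U1 U2 t) (Set.Icc t1 t2) := by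
  unfold Er
  refine integrable_finsetSum _ fun s _ => ?_
  have h0 : (0:ℝ) ≤ (if Y0 ≤ |(zz s).im| * L then 1 else 0) := by split_ifs <;> norm_num
  exact (err_int hB a N N0 κ1 Y0 L 0 _ h0 (zz s) t1 t2).const_mul _

lemma Er_nonneg (a N N0 κ1 Y0 L U1 U2 t : ℝ) : 0 ≤ Er B a N N0 κ1 Y0 L U1 U2 t := by
  unfold Er
  refine Finset.sum_nonneg fun s _ => mul_nonneg (Nat.cast_nonneg _) ?_
  unfold er
  refine err_nonneg _ _ _ _ _ _ _ _ _ ?_ _ _
  split_ifs <;> norm_num

lemma Er_set (hB : Continuous B) {a N N0 κ1 Y0 L U1 U2 t1 t2 : ℝ} (ht : t1 ≤ t2) {S : Set ℝ}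
    (hSI : S ⊆ Set.Icc t1 t2) : ∫ t in S, Er B a N N0 κ1 Y0 L U1 U2 t ≤
      ∫ t in t1..t2, Er B a N N0 κ1 Y0 L U1 U2 t := by
  have h1 : ∫ t in S, Er B a N N0 κ1 Y0 L U1 U2 t ≤ ∫ t in Set.Icc t1 t2, Er B a N N0 κ1 Y0 L U1 U2 t :=
    setIntegral_mono_set (Er_int hB _ _ _ _ _ _ _ _ _ _) (Filter.Eventually.of_forall fun t => Er_nonneg _ _ _ _ _ _ _ _ _)
      (Filter.Eventually.of_forall hSI)
  rw [integral_Icc_eq_integral_Ioc, ← intervalIntegral.integral_of_le ht] at h1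
  exact h1

/-- the multiplicities, integrated over a set -/
lemma blockC {kt : ℂ → ℂ} {R : ℝ → ℝ} (hk0 : Ker kt R) (hMN : P_MN) (hζ : GoodL riemannZeta) {j : ℕ} {C N : ℝ}
    (hW : Wf j C N B) (hK : 0 < K) (hε : 0 < ε) (hε2 : ε < 1 / 2) (hτ : 0 < τ)
    (hτε : τ ≤ ε / 4) (hη : 0 < η) {L N0 κ1 Y0 CS : ℝ} (hLd : L = Real.log T) (hL : 10 ≤ L)
    (hT : T + L ≤ 2 * T - L) (hU : 1 ≤ U1) (hN0 : 0 ≤ N0)
    (hEF : ∀ t u : ℝ, T + L ≤ t → t ≤ 2 * T - L → 0 ≤ u → u ≤ (1 - ε) * L →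
      ‖St B (τ * L) U1 U2 u t - cexp (I * u * t) * ((Mu B (τ * L) L u : ℝ) -
        DPp c B (τ * L) u (XT ε T) t - DPm c B (τ * L) u (XT ε T) t)‖ ≤ 1 / 2)
    (hMs : ∀ u : ℝ, 2 * (τ * L) ≤ u → |Mu B (τ * L) L u| ≤ 1 / 2) (hCS : 0 < CS)
    (hSM : ∀ u : ℝ, 0 ≤ u → u ≤ (1 - ε) * L →
      ∫ t in (T + L)..(2 * T - L), ‖St B (τ * L) U1 U2 u t - cexp (I * u * t) * (Mu B (τ * L) L u : ℝ)‖ ^ 2 ≤
      CS * K ^ 2 * (T * (1 + u / (τ * L))))
    {S : Set ℝ} (hS : MeasurableSet S) (hSI : S ⊆ Set.Icc (T + L) (2 * T - L)) :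
    ∫ t in S, Sm ph U1 U2 ((N - N0) / (τ * L)) t ≤
      volume.real S * ((1 + η) * (R 0 / ((1 - ε) * τ) * ∫ ξ in (-1:ℝ)..1, B ξ ^ 2) +
      (1 + 1 / η) * (2 * R 0)) + (1 + 1 / η) * (2 * R 0) * (20 * τ * (CS * K ^ 2 * T)) +
      (1 + η) * (∫ t in S, Dq R c B ε τ (4 * τ) T t) +
      3 * ∫ t in (T + L)..(2 * T - L), Er B (τ * L) N N0 κ1 Y0 L U1 U2 t := by
  classical
  have hL0 : 0 < L := by linarith
  have hτL : 0 < τ * L := mul_pos hτ hL0
  have hT0 : 0 < T := by linarith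
  have h4τ : 4 * τ ≤ 1 := by linarith
  have h4τ0 : 0 ≤ 4 * τ := by linarith
  have hSf : volume S ≠ ⊤ := ne_top_of_le_ne_top (by simp) (measure_mono hSI)
  set E : ℝ → ℝ := fun t => Er B (τ * L) N N0 κ1 Y0 L U1 U2 t with hE
  have hEi : IntegrableOn E S := (Er_int hW.cont _ _ _ _ _ _ _ _ _ _).mono_set hSI
  -- the functions
  set g2 : ℝ → ℝ := fun t => ∫ x in (0:ℝ)..(4 * τ), Gd B (τ * L) L U1 U2 ((1 - ε) * L * x) t with hg2
  have hGc2 : Continuous (Function.uncurry fun t x : ℝ => Gd B (τ * L) L U1 U2 ((1 - ε) * L * x) t) := by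
    exact (Gd_cont hW.cont (τ * L) L U1 U2).comp (f := fun p : ℝ × ℝ => ((1 - ε) * L * p.2, p.1)) (by fun_prop)
  have hg2c : Continuous g2 := by
    apply intervalIntegral.continuous_parametric_intervalIntegral_of_continuous'
    exact hGc2
  have hDc : Continuous (fun t : ℝ => Dq R c B ε τ (4 * τ) T t) :=
    Dq_cont hW.cont hε hε2 hτ hτε le_rfl h4τ hk0.rcont (by rw [← hLd]; exact hL0)
  set Mb := R 0 / ((1 - ε) * τ) * ∫ ξ in (-1:ℝ)..1, B ξ ^ 2 with hMb
  set q := (1 + 1 / η) * (2 * R 0) with hq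
  have hq0 : 0 ≤ q := mul_nonneg (by positivity) (mul_nonneg (by norm_num) (hk0.rnonneg 0))
  -- the pointwise inequality
  have hpt : ∀ t ∈ S, Sm ph U1 U2 ((N - N0) / (τ * L)) t ≤ ((1 + η) * Mb + q) + q * g2 t +
      (1 + η) * Dq R c B ε τ (4 * τ) T t + 3 * E t := by
    intro t ht
    obtain ⟨ht1, ht2⟩ := hSI ht
    have h1 := pointC hk0 hζ hW (a := τ * L) (L := L) (Λ := (1 - ε) * L) (N0 := N0)
      (κ1 := κ1) (Y0 := Y0) (t := t) (U1 := U1) (U2 := U2) hτL hU (mul_nonneg (by linarith) hL0.le)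
      (by nlinarith) hN0
    have h2 := pair_termK (R := R) (kt := kt) hk0 (B := B) (c := c) (ε := ε) (τ := τ) (η := η) (T := T) (U1 := U1)
      (U2 := U2) hW.cont hMN
      hW.even hε hε2 hτ hτε hη (by rw [← hLd]; exact hL0) (t := t)
      (by rw [← hLd]; exact fun u h3 h4 => hEF t u ht1 ht2 h3 h4)
      (by rw [← hLd]; exact hMs)
    rw [← hLd] at h2
    have h4 : q * g2 t = (1 + 1 / η) * (2 * R 0 * g2 t) := by rw [hq]; ring
    rw [h4]
    simp only [hg2, hE, hq]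
    linarith
  -- integration
  have hfin : IsFiniteMeasure (volume.restrict S) := ⟨by
    rw [Measure.restrict_apply_univ]; exact lt_top_iff_ne_top.2 hSf⟩
  have hcI : ∀ f : ℝ → ℝ, Continuous f → IntegrableOn f S := fun f hf =>
    (hf.continuousOn.integrableOn_compact isCompact_Icc).mono_set hSI
  have hI1 : IntegrableOn (fun _ : ℝ => ((1 + η) * Mb + q)) S := hcI _ continuous_const
  have hI2 : IntegrableOn (fun t : ℝ => q * g2 t) S := hcI _ (by fun_prop)
  have hI3 : IntegrableOn (fun t : ℝ => (1 + η) * Dq R c B ε τ (4 * τ) T t) S := hcI _ (by fun_prop)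
  have hI4 : IntegrableOn (fun t : ℝ => 3 * E t) S := hEi.const_mul 3
  have hI12 : IntegrableOn (fun t : ℝ => ((1 + η) * Mb + q) + q * g2 t) S := hI1.add hI2
  have hI123 : IntegrableOn (fun t : ℝ => ((1 + η) * Mb + q) + q * g2 t +
      (1 + η) * Dq R c B ε τ (4 * τ) T t) S := hI12.add hI3
  have hmono := setIntegral_mono_on (μ := volume) (s := S)
    (f := fun t => Sm ph U1 U2 ((N - N0) / (τ * L)) t)
    (g := fun t => ((1 + η) * Mb + q) + q * g2 t + (1 + η) * Dq R c B ε τ (4 * τ) T t + 3 * E t)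
    (Sm_int _ _ _ _ hSf) (hI123.add hI4) hS hpt
  rw [integral_add hI123 hI4, integral_add hI12 hI3, integral_add hI1 hI2,
    setIntegral_const, integral_const_mul, integral_const_mul, integral_const_mul, smul_eq_mul] at hmono
  have hb2 : ∫ t in S, g2 t ≤ 20 * τ * (CS * K ^ 2 * T) := by
    have hg20 : ∀ t, 0 ≤ g2 t := fun t => intervalIntegral.integral_nonneg h4τ0 fun x _ => by
      unfold Gd; positivity
    have h1 : ∫ t in S, g2 t ≤ ∫ t in Set.Icc (T + L) (2 * T - L), g2 t :=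
      setIntegral_mono_set (hg2c.continuousOn.integrableOn_compact isCompact_Icc)
        (Filter.Eventually.of_forall hg20) (Filter.Eventually.of_forall hSI)
    have h2 : ∫ t in Set.Icc (T + L) (2 * T - L), g2 t =
        ∫ x in (0:ℝ)..(4 * τ), ∫ t in (T + L)..(2 * T - L), Gd B (τ * L) L U1 U2 ((1 - ε) * L * x) t := by
      rw [integral_Icc_eq_integral_Ioc, ← intervalIntegral.integral_of_le hT]
      refine MeasureTheory.intervalIntegral_intervalIntegral_swap ?_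
      refine (hGc2.continuousOn.integrableOn_compact (K := Set.uIcc (T + L) (2 * T - L) ×ˢ Set.uIcc 0 (4 * τ)) ?_).mono_set ?_
      · exact isCompact_uIcc.prod isCompact_uIcc
      · exact Set.prod_mono Set.uIoc_subset_uIcc Set.uIoc_subset_uIcc
    have h3 : ∫ x in (0:ℝ)..(4 * τ), ∫ t in (T + L)..(2 * T - L), Gd B (τ * L) L U1 U2 ((1 - ε) * L * x) t ≤
        ∫ _x in (0:ℝ)..(4 * τ), 5 * (CS * K ^ 2 * T) := by
      refine intervalIntegral.integral_mono_on h4τ0 ?_ (by simp) fun x hx => ?_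
      · refine Continuous.intervalIntegrable ?_ _ _
        apply intervalIntegral.continuous_parametric_intervalIntegral_of_continuous'
        exact (Gd_cont hW.cont (τ * L) L U1 U2).comp (f := fun p : ℝ × ℝ => ((1 - ε) * L * p.1, p.2)) (by fun_prop)
      · have hx1 : x ≤ 1 := hx.2.trans h4τ
        have hΛ : 0 ≤ (1 - ε) * L := mul_nonneg (by linarith) hL0.le
        have h4 := hSM ((1 - ε) * L * x) (mul_nonneg hΛ hx.1) (by
          calc (1 - ε) * L * x ≤ (1 - ε) * L * 1 := mul_le_mul_of_nonneg_left hx1 hΛ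
            _ = _ := mul_one _)
        refine h4.trans ?_
        have h5 : (1 - ε) * L * x / (τ * L) ≤ 4 := by
          rw [div_le_iff₀ hτL]
          have h6 : (1 - ε) * L * x ≤ 1 * L * (4 * τ) := by
            have := hx.2
            have := hx.1
            gcongr
            linarith
          linarith
        have h6 : T * (1 + (1 - ε) * L * x / (τ * L)) ≤ T * 5 :=
          mul_le_mul_of_nonneg_left (by linarith) hT0.le
        calc CS * K ^ 2 * (T * (1 + (1 - ε) * L * x / (τ * L))) ≤ CS * K ^ 2 * (T * 5) :=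
              mul_le_mul_of_nonneg_left h6 (by positivity)
          _ = _ := by ring
    rw [intervalIntegral.integral_const, smul_eq_mul, sub_zero] at h3
    rw [h2] at h1
    refine h1.trans (h3.trans (le_of_eq ?_))
    ring
  have hb3 : ∫ t in S, E t ≤ ∫ t in (T + L)..(2 * T - L), Er B (τ * L) N N0 κ1 Y0 L U1 U2 t :=
    Er_set hW.cont hT hSI
  have hc2 : q * ∫ t in S, g2 t ≤ q * (20 * τ * (CS * K ^ 2 * T)) := mul_le_mul_of_nonneg_left hb2 hq0
  linarith

/-- the number of zeros, integrated over a set -/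
lemma blockN {j : ℕ} {C N : ℝ} (hW : Wf j C N B) (hK : 0 < K) (hτ : 0 < τ)
    {L N0 κ1 Y0 CS : ℝ} (hL : 10 ≤ L) (hT : T + L ≤ 2 * T - L) (hN0 : 0 ≤ N0)
    (hSM : ∫ t in (T + L)..(2 * T - L), ‖St B (τ * L) U1 U2 0 t - (Mu B (τ * L) L 0 : ℝ)‖ ^ 2 ≤ CS * K ^ 2 * T)
    {S : Set ℝ} (hS : MeasurableSet S) (hSI : S ⊆ Set.Icc (T + L) (2 * T - L)) :
    ∫ t in S, |Sm (fun m => m) U1 U2 ((N - N0) / (τ * L)) t - Mu B (τ * L) L 0| ≤
      volume.real S * K + CS * K * T + ∫ t in (T + L)..(2 * T - L), Er B (τ * L) N N0 κ1 Y0 L U1 U2 t := by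
  have hL0 : 0 < L := by linarith
  have hτL : 0 < τ * L := mul_pos hτ hL0
  have hSf : volume S ≠ ⊤ := ne_top_of_le_ne_top (by simp) (measure_mono hSI)
  set E : ℝ → ℝ := fun t => Er B (τ * L) N N0 κ1 Y0 L U1 U2 t with hE
  have hEi : IntegrableOn E S := (Er_int hW.cont _ _ _ _ _ _ _ _ _ _).mono_set hSI
  set g1 : ℝ → ℝ := fun t => ‖St B (τ * L) U1 U2 0 t - (Mu B (τ * L) L 0 : ℝ)‖ ^ 2 with hg1
  have hg1c : Continuous g1 := by
    have h1 := (St_cont hW.cont (τ * L) U1 U2).comp (f := fun t : ℝ => ((0:ℝ), t)) (by fun_prop)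
    simp only [Function.comp_def] at h1
    exact ((h1.sub continuous_const).norm.pow 2)
  have hpt : ∀ t ∈ S, |Sm (fun m => m) U1 U2 ((N - N0) / (τ * L)) t - Mu B (τ * L) L 0| ≤
      K + 1 / K * g1 t + E t := by
    intro t _
    have h1 := pointN (B := B) (a := τ * L) (L := L) (N := N) (N0 := N0) (κ1 := κ1) (Y0 := Y0) (t := t) (U1 := U1)
      (U2 := U2) hτL hN0 hL0.le
    have h5 : |(St B (τ * L) U1 U2 0 t - (Mu B (τ * L) L 0 : ℝ)).re| ≤
        ‖St B (τ * L) U1 U2 0 t - (Mu B (τ * L) L 0 : ℝ)‖ := Complex.abs_re_le_norm _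
    rw [Complex.sub_re, Complex.ofReal_re] at h5
    have h6 : ‖St B (τ * L) U1 U2 0 t - (Mu B (τ * L) L 0 : ℝ)‖ ≤ K + 1 / K * g1 t := by
      simp only [hg1]
      set y := ‖St B (τ * L) U1 U2 0 t - (Mu B (τ * L) L 0 : ℝ)‖
      have hy : 0 ≤ y := norm_nonneg _
      have : 0 ≤ (K - y) ^ 2 / K := by positivity
      have e : (K - y) ^ 2 / K = K - 2 * y + 1 / K * y ^ 2 := by
        field_simp
        ring
      rw [e] at this
      linarith
    have h7 := abs_sub_le (Sm (fun m => (m:ℝ)) U1 U2 ((N - N0) / (τ * L)) t) (St B (τ * L) U1 U2 0 t).re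
      (Mu B (τ * L) L 0)
    simp only [hE]
    linarith
  have hfin : IsFiniteMeasure (volume.restrict S) := ⟨by
    rw [Measure.restrict_apply_univ]; exact lt_top_iff_ne_top.2 hSf⟩
  have hcI : ∀ f : ℝ → ℝ, Continuous f → IntegrableOn f S := fun f hf =>
    (hf.continuousOn.integrableOn_compact isCompact_Icc).mono_set hSI
  have hI1 : IntegrableOn (fun _ : ℝ => K) S := hcI _ continuous_const
  have hI2 : IntegrableOn (fun t : ℝ => 1 / K * g1 t) S := hcI _ (by fun_prop)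
  have hI12 : IntegrableOn (fun t : ℝ => K + 1 / K * g1 t) S := hI1.add hI2
  have hl : IntegrableOn (fun t => |Sm (fun m => (m:ℝ)) U1 U2 ((N - N0) / (τ * L)) t - Mu B (τ * L) L 0|) S :=
    ((Sm_int _ _ _ _ hSf).sub (hcI _ continuous_const)).abs
  have hmono := setIntegral_mono_on (μ := volume) (s := S)
    (f := fun t => |Sm (fun m => (m:ℝ)) U1 U2 ((N - N0) / (τ * L)) t - Mu B (τ * L) L 0|)
    (g := fun t => K + 1 / K * g1 t + E t) hl (hI12.add hEi) hS hpt
  rw [integral_add hI12 hEi, integral_add hI1 hI2, setIntegral_const, integral_const_mul, smul_eq_mul] at hmono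
  have hb1 : ∫ t in S, g1 t ≤ CS * K ^ 2 * T := by
    have h1 : ∫ t in S, g1 t ≤ ∫ t in Set.Icc (T + L) (2 * T - L), g1 t := by
      refine setIntegral_mono_set (hg1c.continuousOn.integrableOn_compact isCompact_Icc) ?_
        (Filter.Eventually.of_forall hSI)
      refine Filter.Eventually.of_forall fun t => ?_
      simp only [hg1]
      positivity
    rw [integral_Icc_eq_integral_Ioc, ← intervalIntegral.integral_of_le hT] at h1
    exact h1.trans hSM
  have hc1 : (1 / K) * ∫ t in S, g1 t ≤ CS * K * T := by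
    calc (1 / K) * ∫ t in S, g1 t ≤ (1 / K) * (CS * K ^ 2 * T) := mul_le_mul_of_nonneg_left hb1 (by positivity)
      _ = _ := by field_simp
  have hb3 : ∫ t in S, E t ≤ ∫ t in (T + L)..(2 * T - L), Er B (τ * L) N N0 κ1 Y0 L U1 U2 t :=
    Er_set hW.cont hT hSI
  linarith

end

end

end Pool.Agent.K4H6.Win
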