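import Pool.Agent.K4H6.Cov.Box2

set_option autoImplicit false

/-! Multiplicities in short windows: the kernel. -/

namespace Pool.Agent.K4H6.Win

open Filter Topology MeasureTheory Complex Pool.Agent.K4H6.Cov

noncomputable section

/-- the kernel -/
def kw (z : ℂ) : ℂ := 2 * kb (1 / 4) z

/-- the spectral density -/
def Rw (s : ℝ) : ℝ := 4 * trap (1 / 4) (1 / 4) s

/-- the measure -/
def muw : Measure ℝ := (ENNReal.ofReal 2) • volume.restrict (Set.Ioc (-(1 / 4)) (1 / 4))

lemma muw_int {E : Type*} [NormedAddCommGroup E] {f : ℝ → E} (hf : Continuous f) : Integrable f muw := by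
  unfold muw
  refine Integrable.smul_measure ?_ ENNReal.ofReal_ne_top
  exact hf.integrableOn_Ioc

lemma muw_eq (f : ℝ → ℂ) : ∫ x, f x ∂muw = 2 * ∫ x in (-(1 / 4 : ℝ))..(1 / 4), f x := by
  unfold muw
  rw [integral_smul_measure, ENNReal.toReal_ofReal (by norm_num), Complex.real_smul,
      intervalIntegral.integral_of_le (by norm_num)]
  norm_num

lemma gw_memLp (Λ : ℝ) (z : ℂ) : MemLp (gv Λ z) 2 muw := by
  rw [memLp_two_iff_integrable_sq_norm (gv_cont Λ z).aestronglyMeasurable]
  have h := gv_cont Λ z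
  exact muw_int (by fun_prop)

lemma gw_inner (Λ : ℝ) (z w : ℂ) :
    ∫ x, (starRingEnd ℂ) (gv Λ z x) * gv Λ w x ∂muw = kw (Λ * (w - (starRingEnd ℂ) z)) := by
  have e : ∀ x : ℝ, (starRingEnd ℂ) (gv Λ z x) * gv Λ w x = cexp (I * (Λ * (w - (starRingEnd ℂ) z)) * x) := by
    intro x
    simp only [gv, map_mul, Complex.conj_ofReal, ← Complex.exp_conj, Complex.conj_I]
    rw [← Complex.exp_add]
    congr 1
    ring
  simp_rw [e]
  rw [muw_eq]
  rfl

theorem gramw (Λ : ℝ) : ∃ (E : Type) (_ : NormedAddCommGroup E) (_ : InnerProductSpace ℂ E)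
    (g : ℂ → E), ∀ z w, inner ℂ (g z) (g w) = kw (Λ * (w - (starRingEnd ℂ) z)) := by
  refine ⟨Lp ℂ 2 muw, inferInstance, inferInstance, fun z => (gw_memLp Λ z).toLp _, fun z w => ?_⟩
  rw [L2.inner_def, ← gw_inner]
  apply integral_congr_ae
  filter_upwards [(gw_memLp Λ z).coeFn_toLp, (gw_memLp Λ w).coeFn_toLp] with p h1 h2
  rw [h1, h2, RCLike.inner_apply, mul_comm]

lemma kw_sq (z : ℂ) : kw z ^ 2 = ∫ α in (-1 : ℝ)..1, (Rw α : ℂ) * cexp (I * z * α) := by
  have e1 : kw z ^ 2 = 4 * (kb (1 / 4) z * kb (1 / 4) z) := by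
    unfold kw
    ring
  rw [e1, kb_mul (1 / 4) (1 / 4) (by norm_num) (by norm_num) (by norm_num) (by norm_num),
    ← intervalIntegral.integral_const_mul]
  refine intervalIntegral.integral_congr fun α _ => ?_
  beta_reduce
  unfold Rw
  push_cast
  ring

theorem ker_w : Ker kw Rw where
  gram := gramw
  keven := fun z => by unfold kw; rw [kb_even]
  kzero := by
    unfold kw
    rw [kb_zero]
    norm_num
  im_le := by
    intro Λ L z hΛ hL
    unfold kw
    rw [norm_mul]
    have h1 := kb_im_le (1 / 4) Λ L z (by norm_num) (by norm_num) hΛ hL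
    have h2 : ‖(2:ℂ)‖ = 2 := by norm_num
    rw [h2]
    linarith
  kcont := by
    unfold kw
    exact continuous_const.mul (kb_cont _)
  sq := kw_sq
  rcont := by
    unfold Rw
    exact continuous_const.mul (trap_cont _ _)
  rnonneg := fun x => by
    unfold Rw
    exact mul_nonneg (by norm_num) (trap_nonneg _ _ _)
  reven := fun x => by unfold Rw; rw [trap_even]
  rle := fun x => by
    unfold Rw
    exact mul_le_mul_of_nonneg_left (trap_le _ _ _) (by norm_num)
  rlip := ⟨4, by norm_num, fun x y => by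
    unfold Rw
    rw [← mul_sub, abs_mul, abs_of_pos (by norm_num : (0:ℝ) < 4)]
    exact mul_le_mul_of_nonneg_left (trap_lip _ _ _ _) (by norm_num)⟩

lemma Rw_zero : Rw 0 = 2 := by
  unfold Rw trap
  norm_num

lemma Rw_van (y : ℝ) (hy : 1 / 2 ≤ y) : Rw y = 0 := by
  unfold Rw
  rw [trap_zero_of, mul_zero]
  rw [abs_of_nonneg (by linarith)]
  linarith

lemma Rw_int : ∫ x in (0:ℝ)..1, x * Rw x = 1 / 12 := by
  have e : ∀ x : ℝ, x * Rw x = 4 * (x * trap (1 / 4) (1 / 4) x) := fun x => by unfold Rw; ring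
  simp_rw [e]
  rw [intervalIntegral.integral_const_mul, full (by norm_num) (by norm_num) (by norm_num)]
  unfold Af
  norm_num

end

end Pool.Agent.K4H6.Win
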