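import Mathlib

set_option autoImplicit false

/-! Multiplicities in short windows: computations for the exceptional sets. -/

namespace Pool.Agent.K4H6.Win

lemma calcC {ε g A T r E H M κ X : ℝ} (hε : 0 < ε) (hε1 : ε ≤ 1) (hg : 0 < g) (hg1 : g ≤ ε ^ 2 / 1000) (hA : 0 ≤ A)
    (hT : 0 ≤ T) (hr : 0 < r) (hE : 0 < E) (hM : 0 ≤ M) (hκ : H * M = 2 * r * E * κ) (hκ1 : κ ≤ 1 + 2 * g)
    (h3 : 3 * r ≤ g * H) (hX1 : A * ((13 / 6 + ε) * E) ≤ X)
    (hX2 : 2 * r * X ≤ (H + 3 * r) * (A * (13 / 6 * M) + 30 * g * (T * M))) : A ≤ ε / 8 * T := by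
  have hg2 : g ≤ ε / 1000 := by
    have : ε ^ 2 ≤ ε := by nlinarith
    linarith
  have h4 : (H + 3 * r) * M ≤ 2 * r * E * (1 + 4 * g) := by
    have h5 : (H + 3 * r) * M ≤ (1 + g) * (H * M) := by nlinarith
    have h6 : (1 + g) * (H * M) ≤ (1 + g) * (2 * r * E * (1 + 2 * g)) := by
      rw [hκ]
      gcongr
    have h7 : (1 + g) * (1 + 2 * g) ≤ 1 + 4 * g := by nlinarith
    have h8 : (1 + g) * (2 * r * E * (1 + 2 * g)) ≤ 2 * r * E * (1 + 4 * g) := by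
      have := mul_le_mul_of_nonneg_left h7 (by positivity : 0 ≤ 2 * r * E)
      linarith
    linarith
  have h5 : 2 * r * (A * ((13 / 6 + ε) * E)) ≤ 2 * r * E * (1 + 4 * g) * (13 / 6 * A + 30 * g * T) := by
    calc 2 * r * (A * ((13 / 6 + ε) * E)) ≤ 2 * r * X := by gcongr
      _ ≤ (H + 3 * r) * (A * (13 / 6 * M) + 30 * g * (T * M)) := hX2
      _ = ((H + 3 * r) * M) * (13 / 6 * A + 30 * g * T) := by ring
      _ ≤ _ := mul_le_mul_of_nonneg_right h4 (by positivity)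
  have h6 : A * (13 / 6 + ε) ≤ (1 + 4 * g) * (13 / 6 * A + 30 * g * T) := by
    have hp : 0 < 2 * r * E := by positivity
    refine le_of_mul_le_mul_left ?_ hp
    calc 2 * r * E * (A * (13 / 6 + ε)) = 2 * r * (A * ((13 / 6 + ε) * E)) := by ring
      _ ≤ _ := h5
      _ = _ := by ring
  have h7 : g * A ≤ ε / 1000 * A := mul_le_mul_of_nonneg_right hg2 hA
  have h8 : g * T ≤ ε ^ 2 / 1000 * T := mul_le_mul_of_nonneg_right hg1 hT
  have h9 : (1 + 4 * g) * (30 * g * T) ≤ 31 * (g * T) := by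
    have : 4 * g ≤ 1 / 30 := by linarith
    have h10 : 0 ≤ g * T := by positivity
    nlinarith
  have h11 : A * ε ≤ 26 / 3 * (ε / 1000 * A) + 31 * (ε ^ 2 / 1000 * T) := by nlinarith
  have h12 : ε * (A * (1 - 26 / 3000)) ≤ ε * (31 / 1000 * (ε * T)) := by nlinarith
  have h13 := le_of_mul_le_mul_left h12 hε
  have h14 : 0 ≤ ε * T := by positivity
  linarith

lemma calcN {ε g A T r E H M κ X : ℝ} (hε : 0 < ε) (hε1 : ε ≤ 1) (hg : 0 < g) (hg1 : g ≤ ε ^ 2 / 1000) (hA : 0 ≤ A)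
    (hT : 0 ≤ T) (hr : 0 < r) (hE : 0 < E) (hM : 0 ≤ M) (hκ : H * M = 2 * r * E * κ) (hκ1 : κ ≤ 1 + 2 * g)
    (h3 : 3 * r ≤ g * H) (hX1 : A * (2 * r * ((ε - 2 * g) * E)) ≤ X)
    (hX2 : X ≤ A * (3 * r * M) + (H + 3 * r) * (3 * g * (T * M))) : A ≤ ε / 8 * T := by
  have hg2 : g ≤ ε / 1000 := by
    have : ε ^ 2 ≤ ε := by nlinarith
    linarith
  have h4 : (H + 3 * r) * M ≤ 2 * r * E * (1 + 4 * g) := by
    have h5 : (H + 3 * r) * M ≤ (1 + g) * (H * M) := by nlinarith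
    have h6 : (1 + g) * (H * M) ≤ (1 + g) * (2 * r * E * (1 + 2 * g)) := by
      rw [hκ]
      gcongr
    have h7 : (1 + g) * (1 + 2 * g) ≤ 1 + 4 * g := by nlinarith
    have h8 : (1 + g) * (2 * r * E * (1 + 2 * g)) ≤ 2 * r * E * (1 + 4 * g) := by
      have := mul_le_mul_of_nonneg_left h7 (by positivity : 0 ≤ 2 * r * E)
      linarith
    linarith
  have h5 : 3 * r * M ≤ g * (2 * r * E * (1 + 2 * g)) := by
    calc 3 * r * M ≤ g * H * M := mul_le_mul_of_nonneg_right h3 hM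
      _ = g * (H * M) := by ring
      _ = g * (2 * r * E * κ) := by rw [hκ]
      _ ≤ _ := by gcongr
  have h6 : A * (2 * r * ((ε - 2 * g) * E)) ≤ A * (g * (2 * r * E * (1 + 2 * g))) +
      2 * r * E * (1 + 4 * g) * (3 * g * T) := by
    calc A * (2 * r * ((ε - 2 * g) * E)) ≤ X := hX1
      _ ≤ A * (3 * r * M) + (H + 3 * r) * (3 * g * (T * M)) := hX2
      _ = A * (3 * r * M) + ((H + 3 * r) * M) * (3 * g * T) := by ring
      _ ≤ _ := add_le_add (mul_le_mul_of_nonneg_left h5 hA) (mul_le_mul_of_nonneg_right h4 (by positivity))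
  have h7 : A * (ε - 2 * g) ≤ A * (g * (1 + 2 * g)) + (1 + 4 * g) * (3 * g * T) := by
    have hp : 0 < 2 * r * E := by positivity
    refine le_of_mul_le_mul_left ?_ hp
    calc 2 * r * E * (A * (ε - 2 * g)) = A * (2 * r * ((ε - 2 * g) * E)) := by ring
      _ ≤ _ := h6
      _ = _ := by ring
  have h8 : g * A ≤ ε / 1000 * A := mul_le_mul_of_nonneg_right hg2 hA
  have h9 : g * T ≤ ε ^ 2 / 1000 * T := mul_le_mul_of_nonneg_right hg1 hT
  have h10 : (1 + 4 * g) * (3 * g * T) ≤ 4 * (g * T) := by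
    have : 4 * g ≤ 1 / 30 := by linarith
    have h11 : 0 ≤ g * T := by positivity
    nlinarith
  have h12 : A * (g * (1 + 2 * g)) ≤ 2 * (g * A) := by
    have : 2 * g ≤ 1 := by linarith
    have h13 : 0 ≤ g * A := by positivity
    nlinarith
  have h13 : A * ε ≤ 4 * (ε / 1000 * A) + 4 * (ε ^ 2 / 1000 * T) := by nlinarith
  have h14 : ε * (A * (1 - 4 / 1000)) ≤ ε * (4 / 1000 * (ε * T)) := by nlinarith
  have h15 := le_of_mul_le_mul_left h14 hε
  have h16 : 0 ≤ ε * T := by positivity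
  linarith

end Pool.Agent.K4H6.Win
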