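import Pool.Agent.K4H6.Win.Pw
import Pool.Agent.Y655.SW.Ers
import Pool.Agent.Y627.SW.ER1

set_option autoImplicit false

/-! Multiplicities in short windows: the total cost of the zeros. -/

namespace Pool.Agent.K4H6.Win

open Filter Topology MeasureTheory Complex H370 TH803UC TH803CL Pool.Agent.Y745.SW Pool.Agent.Y655.SW

noncomputable section

lemma er_nonneg (B : ℝ → ℝ) (a N N0 κ1 Y0 L : ℝ) (t : ℝ) (z : ℂ) : 0 ≤ er B a N N0 κ1 Y0 L t z := by
  unfold er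
  refine Pool.Agent.Y655.SW.err_nonneg _ _ _ _ _ _ _ _ _ ?_ _ _
  split_ifs <;> norm_num

/-- the total cost of the zeros -/
theorem ersW : ∃ (j : ℕ) (τ0 : ℝ), 0 < τ0 ∧ τ0 ≤ 1 ∧ ∀ C : ℝ, 1 ≤ C → ∀ ε : ℝ, 0 < ε →
    ∃ κ1 Y0 N0 N1 : ℝ, 1 ≤ Y0 ∧ 1 ≤ N0 ∧ 1 ≤ N1 ∧ N0 ≤ ε * N1 ∧
    ∀ N τ : ℝ, N1 ≤ N → 0 < τ → τ ≤ τ0 → ∀ B : ℝ → ℝ, Wf j C N B → ∀ᶠ T : ℝ in atTop,
      ∀ U1 U2 : ℝ, T ≤ U1 → U2 ≤ 2 * T → ∀ t1 t2 : ℝ, t1 ≤ t2 →
      ∫ t in t1..t2, Er B (τ * Real.log T) N N0 κ1 Y0 (Real.log T) U1 U2 t ≤ ε * (N / τ * T) := by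
  have h1 := Pool.Agent.Y627.SW.t_ER1
  obtain ⟨κ, C', T0, hκ, hC', hT0, hd⟩ := TH803UC.dens_zeta
  obtain ⟨j, κ1, τ0, hκ1, hτ0, hτ1, h2⟩ := h1 κ hκ
  refine ⟨j, τ0, hτ0, hτ1, fun C hC ε hε => ?_⟩
  obtain ⟨C2', hC2', h3⟩ := h2 C hC
  obtain ⟨C2, hC2d⟩ : ∃ C2 : ℝ, C2 = C2' + 3 := ⟨_, rfl⟩
  have hC2 : 0 < C2 := by linarith
  obtain ⟨Y0, hY0⟩ : ∃ Y0 : ℝ, Y0 = max 1 (2 / κ * Real.log (3 * C2 * C' / ε)) := ⟨_, rfl⟩
  have hY1 : 1 ≤ Y0 := by rw [hY0]; exact le_max_left _ _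
  have hY2 : C2 * Real.exp (-(κ * Y0 / 2)) ≤ ε / (3 * C') := by
    have e1 : Real.log (3 * C2 * C' / ε) ≤ κ * Y0 / 2 := by
      have : 2 / κ * Real.log (3 * C2 * C' / ε) ≤ Y0 := by rw [hY0]; exact le_max_right _ _
      calc Real.log (3 * C2 * C' / ε) = κ * (2 / κ * Real.log (3 * C2 * C' / ε)) / 2 := by
            field_simp
        _ ≤ κ * Y0 / 2 := by gcongr
    have e2 : 3 * C2 * C' / ε ≤ Real.exp (κ * Y0 / 2) := by
      rw [← Real.log_le_iff_le_exp (by positivity)]; exact e1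
    rw [Real.exp_neg, ← div_eq_mul_inv, div_le_div_iff₀ (Real.exp_pos _) (by positivity)]
    rw [div_le_iff₀ hε] at e2
    linarith
  obtain ⟨N0, N1', hN0, hN1', hNN, h4⟩ := h3 Y0 (ε / (3 * C')) hY1 (by positivity)
  obtain ⟨N1, hN1d⟩ : ∃ N1 : ℝ, N1 = max N1' (N0 / ε) := ⟨_, rfl⟩
  have hN1a : N1' ≤ N1 := by rw [hN1d]; exact le_max_left _ _
  have hN1b : N0 ≤ ε * N1 := by
    have : N0 / ε ≤ N1 := by rw [hN1d]; exact le_max_right _ _
    rw [div_le_iff₀ hε] at this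
    linarith
  refine ⟨κ1, Y0, N0, N1, hY1, hN0, by linarith, hN1b, ?_⟩
  intro N τ hN hτ hττ B hB
  have h5 := Real.tendsto_log_atTop.eventually (h4 N τ (hN1a.trans hN) hτ hττ)
  filter_upwards [h5, eventually_ge_atTop T0] with T h6 hT
  intro U1 U2 hU1 hU2 t1 t2 ht
  have hT10 : 10 ≤ T := hT0.trans hT
  have hL : 0 < Real.log T := Real.log_pos (by linarith)
  have hN0' : 0 < N := by linarith
  obtain ⟨L, hLd⟩ : ∃ L : ℝ, L = Real.log T := ⟨_, rfl⟩
  have hdT := hd T hT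
  rw [← hLd] at h6 hL hdT ⊢
  have hsub : Zf riemannZeta U1 U2 ⊆ Zf riemannZeta T (2 * T) := zf_sub (by linarith) hU1 hU2
  have h7 : ∀ s ∈ Zf riemannZeta U1 U2,
      Integrable (fun t : ℝ => er B (τ * L) N N0 κ1 Y0 L t (zz s)) ∧
      ∫ t : ℝ, er B (τ * L) N N0 κ1 Y0 L t (zz s) ≤
        N / (τ * L) * (ε / (3 * C') + (if Y0 ≤ |(zz s).im| * L then
          C2 * Real.exp (κ * (|(zz s).im| * L) / 2) else 0)) := by
    intro s hs
    have hy : |(zz s).im| ≤ 1 / 2 := by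
      rw [mem_Zf good_zeta (by linarith)] at hs
      rw [zz_im, abs_neg, abs_le]
      constructor <;> linarith [hs.1, hs.2.1]
    have h8 := h6 0 (if Y0 ≤ |(zz s).im| * L then 1 else 0) le_rfl (by positivity)
      (by split_ifs <;> norm_num) (by split_ifs <;> norm_num) B hB (zz s) hy
    refine ⟨h8.1, h8.2.trans ?_⟩
    have hpos : 0 ≤ N / (τ * L) := by positivity
    refine mul_le_mul_of_nonneg_left ?_ hpos
    split_ifs with hY
    · have h9 : 1 ≤ Real.exp (κ * (|(zz s).im| * L) / 2) := Real.one_le_exp (by positivity)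
      rw [hC2d]
      nlinarith
    · linarith
  have hK : ε / (3 * C') + C2 * Real.exp (-(κ * Y0 / 2)) ≤ ε / C' := by
    calc _ ≤ ε / (3 * C') + ε / (3 * C') := by gcongr
      _ ≤ ε / (3 * C') + ε / (3 * C') + ε / (3 * C') := by
        have : 0 ≤ ε / (3 * C') := by positivity
        linarith
      _ = ε / C' := by field_simp; ring
  have h8 : ∀ s ∈ Zf riemannZeta U1 U2,
      ∫ t in t1..t2, (mult riemannZeta s : ℝ) * er B (τ * L) N N0 κ1 Y0 L t (zz s) ≤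
        N / (τ * L) * (ε / C') * ((mult riemannZeta s : ℝ) *
          Real.exp (κ * (|(zz s).im| * L))) := by
    intro s hs
    obtain ⟨hi, hb⟩ := h7 s hs
    rw [intervalIntegral.integral_const_mul]
    have e1 : ∫ t in t1..t2, er B (τ * L) N N0 κ1 Y0 L t (zz s) ≤
        ∫ t : ℝ, er B (τ * L) N N0 κ1 Y0 L t (zz s) := by
      rw [intervalIntegral.integral_of_le ht]
      exact setIntegral_le_integral hi (Eventually.of_forall fun t => er_nonneg B _ N N0 κ1 Y0 L t _)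
    have hy : 0 ≤ |(zz s).im| * L := mul_nonneg (abs_nonneg _) hL.le
    have e2 : 1 ≤ Real.exp (κ * (|(zz s).im| * L)) := Real.one_le_exp (by positivity)
    have e3 : (if Y0 ≤ |(zz s).im| * L then C2 * Real.exp (κ * (|(zz s).im| * L) / 2) else 0) ≤
        C2 * Real.exp (-(κ * Y0 / 2)) * Real.exp (κ * (|(zz s).im| * L)) := by
      split_ifs with h
      · rw [mul_assoc, ← Real.exp_add]
        refine mul_le_mul_of_nonneg_left (Real.exp_le_exp.2 ?_) hC2.le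
        have : κ * Y0 ≤ κ * (|(zz s).im| * L) := mul_le_mul_of_nonneg_left h hκ.le
        linarith
      · positivity
    have e4 : ε / (3 * C') + (if Y0 ≤ |(zz s).im| * L then
          C2 * Real.exp (κ * (|(zz s).im| * L) / 2) else 0) ≤
        ε / C' * Real.exp (κ * (|(zz s).im| * L)) := by
      have f1 : ε / (3 * C') ≤ (ε / (3 * C')) * Real.exp (κ * (|(zz s).im| * L)) :=
        le_mul_of_one_le_right (by positivity) e2
      have f2 := mul_le_mul_of_nonneg_right hK (Real.exp_pos (κ * (|(zz s).im| * L))).le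
      linarith
    calc (mult riemannZeta s : ℝ) * ∫ t in t1..t2, er B (τ * L) N N0 κ1 Y0 L t (zz s) ≤
        (mult riemannZeta s : ℝ) * (N / (τ * L) * (ε / C' *
          Real.exp (κ * (|(zz s).im| * L)))) := by
          refine mul_le_mul_of_nonneg_left (e1.trans (hb.trans ?_)) (Nat.cast_nonneg _)
          exact mul_le_mul_of_nonneg_left e4 (by positivity)
      _ = _ := by ring
  unfold Er
  rw [intervalIntegral.integral_finsetSum (fun s hs =>
    ((h7 s hs).1.intervalIntegrable).const_mul _)]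
  refine (Finset.sum_le_sum h8).trans ?_
  rw [← Finset.mul_sum]
  have h9 : ∑ s ∈ Zf riemannZeta U1 U2, (mult riemannZeta s : ℝ) *
      Real.exp (κ * (|(zz s).im| * L)) ≤ C' * (T * L) :=
    (Finset.sum_le_sum_of_subset_of_nonneg hsub fun s _ _ => by positivity).trans hdT
  calc N / (τ * L) * (ε / C') * ∑ s ∈ Zf riemannZeta U1 U2, (mult riemannZeta s : ℝ) *
      Real.exp (κ * (|(zz s).im| * L)) ≤ N / (τ * L) * (ε / C') * (C' * (T * L)) :=
        mul_le_mul_of_nonneg_left h9 (by positivity)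
    _ = ε * (N / τ * T) := by field_simp

end

end Pool.Agent.K4H6.Win
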