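import Pool.Agent.K4H6.Win.Bk
import Pool.Agent.K4H6.Win.Ers
import Pool.Agent.K4H6.Win.Bx
import Pool.Agent.K4H6.Win.Ca
import Pool.Agent.K4H6.Cov.Core
import Pool.Agent.Y248.SW.KER
import Pool.Agent.Y627.SW.MN
import Pool.Agent.Y840.SW.MVB
import Pool.Agent.Y240.SW.DF
import Pool.Agent.Y228.SW.EF
import Pool.Agent.Y274.SW.SM

set_option autoImplicit false

/-! Multiplicities in short windows: the two main estimates. -/

namespace Pool.Agent.K4H6.Win

open Filter Topology MeasureTheory Complex H370 TH803UC TH803CL Pool.Agent.Y745.SW Pool.Agent.K4H6.Cov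

noncomputable section

/-- **the two main estimates** -/
theorem coreW {g : ℝ} (hg : 0 < g) (hg1 : g ≤ 1 / 1000) :
    ∃ τm N N0 : ℝ, 0 < τm ∧ 1 ≤ N ∧ 0 ≤ N0 ∧ N0 ≤ g * N ∧ ∀ τ : ℝ, 0 < τ → τ ≤ τm →
      ∀ (c : ℕ → ℂ) (C0 : ℝ), (∀ n, ‖c n‖ ≤ ArithmeticFunction.vonMangoldt n) →
      ∀ᶠ T : ℝ in atTop, ∀ U1 U2 : ℝ, EFD c C0 T U1 U2 → ∀ S : Set ℝ, MeasurableSet S →
        S ⊆ Set.Icc (T + Real.log T) (2 * T - Real.log T) →
        (∫ t in S, Sm ph U1 U2 ((N - N0) / (τ * Real.log T)) t ≤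
          volume.real S * (13 / 6 * (N / (Real.pi * τ))) + 30 * g * (T * (N / (Real.pi * τ)))) ∧
        (∫ t in S, |Sm (fun m => m) U1 U2 ((N - N0) / (τ * Real.log T)) t - N / (Real.pi * τ)| ≤
          3 * g * (T * (N / (Real.pi * τ)))) := by
  classical
  have a_EF : P_EF := Pool.Agent.Y228.SW.t_EF
  obtain ⟨CS, hCS, hSM⟩ : P_SM := Pool.Agent.Y274.SW.t_SM Pool.Agent.Y840.SW.t_MVB a_EF
  obtain ⟨j, τ0, hτ0, hτ01, hE⟩ := ersW
  obtain ⟨C, hC, hB⟩ := Pool.Agent.Y248.SW.t_KER j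
  have hk0 := ker_w
  have hRc := hk0.rcont
  have hR0 := hk0.rnonneg
  have hRm := hk0.rle
  obtain ⟨KR, hKR0, hKR⟩ := hk0.rlip
  obtain ⟨CD, hCD, hDF⟩ := Pool.Agent.Y240.SW.t_DF Rw hRc (fun x _ => hR0 x) ⟨KR, hKR⟩
  have hpi := Real.pi_pos
  have h1c := Pool.Agent.Y274.SW.c1_pos
  set ε2 : ℝ := g / (10 * Real.pi) with hε2
  have hε20 : 0 < ε2 := by positivity
  have hε2g : ε2 ≤ g := by
    rw [hε2]
    refine div_le_self hg.le ?_
    have := Real.pi_gt_three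
    linarith
  obtain ⟨κ1, Y0, N0, N1, hY0, hN0, hN1, hN01, hE⟩ := hE C hC ε2 hε20
  obtain ⟨B, hW⟩ := hB N1 hN1
  set N := N1 with hN
  set εs : ℝ := g with hεs
  set q : ℝ := (1 + 1 / g) * (2 * Rw 0) with hq
  have hq0 : 0 ≤ q := mul_nonneg (by positivity) (mul_nonneg (by norm_num) (hR0 0))
  have hN0' : 0 < N := by linarith
  set C7 : ℝ := 72 * Pool.Agent.Y274.SW.c1 ^ 2 * Rw 0 ^ 2 with hC7
  have hC70 : 0 ≤ C7 := by positivity
  -- the range of `τ`
  obtain ⟨τm, hτm, hτma, hτmb, hτm1, hτm2, hτm3, hτm4, hτm5⟩ : ∃ τm : ℝ, 0 < τm ∧ τm ≤ τ0 ∧ τm ≤ εs / 4 ∧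
      τm * (Real.pi * (C * (1 + CS))) ≤ g ∧ τm * (Real.pi * (q + 4)) ≤ g ∧
      τm * (20 * Real.pi * (q * CS * C ^ 2 * N)) ≤ g ∧ τm * CD ≤ g ∧
      τm * (C7 * Real.pi ^ 2 * C ^ 4 * N ^ 2) ≤ g ^ 2 := by
    have hC0 : 0 < C := by linarith
    exact tau_choice hτ0 (by positivity) hg (by linarith) (by positivity) (by positivity) (by positivity)
      (by positivity) (by positivity)
  refine ⟨τm, N, N0, hτm, hN1, by linarith, hN01.trans (mul_le_mul_of_nonneg_right hε2g hN0'.le), ?_⟩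
  intro τ hτ hττ c C0 hc
  have hτa : τ ≤ τ0 := hττ.trans hτma
  have hτb : τ ≤ εs / 4 := hττ.trans hτmb
  have hεs0 : 0 < εs := hg
  have hεs2 : εs < 1 / 2 := by linarith
  have hmon : ∀ x y : ℝ, 0 ≤ x → τm * x ≤ y → τ * x ≤ y := fun x y hx h =>
    (mul_le_mul_of_nonneg_right hττ hx).trans h
  have hZq1 := Zq_le (c := c) hW.cont (ε := εs) (τ := τ) (ηs := 4 * τ) hεs0 hεs2 hτ hτb
    le_rfl (by linarith) Pool.Agent.Y240.SW.t_DF hRc (fun x _ => hR0 x) ⟨KR, hKR⟩ hW.even hc hDF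
  obtain ⟨C1, hC1, hEF⟩ := a_EF εs τ hεs0 hεs2 hτ hτb c C0
  have hEF := hEF B (C * N) hW.cont hW.even hW.bd
  have hSM := hSM εs τ hεs0 hεs2 hτ hτb c C0 B (C * N) hW.cont hW.even hW.bd
  have hE := hE N τ le_rfl hτ hτa B hW
  set M : ℝ := N / (Real.pi * τ) with hM
  have hM0 : 0 < M := by positivity
  set w : ℝ := g * M with hw
  have hw0 : 0 < w := by positivity
  have hlow := low Pool.Agent.Y840.SW.t_MVB hRc (fun y => hR0 y) (fun y => hRm y) Rw_van hc hW.cont hW.bd hεs0 hεs2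
    hτ hτb hg hw0
  -- the main term
  have hMu : ∀ᶠ T : ℝ in atTop, |Mu B (τ * Real.log T) (Real.log T) 0 - M| ≤ g * M := by
    have h1 := (Mu_lim hW.cont hτ).comp Real.tendsto_log_atTop
    rw [hW.zero] at h1
    have h2 : N / Real.pi / τ = M := by rw [hM, div_div]
    rw [h2, Metric.tendsto_nhds] at h1
    filter_upwards [h1 (g * M) (by positivity)] with T hT
    rw [Real.dist_eq] at hT
    exact hT.le
  have hlog := Real.tendsto_log_atTop
  have hTl : ∀ᶠ T : ℝ in atTop, T + Real.log T ≤ 2 * T - Real.log T := by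
    have h1 := Real.isLittleO_log_id_atTop.def (c := 1 / 2) (by norm_num)
    filter_upwards [h1, eventually_ge_atTop 1] with T hT hT1
    rw [Real.norm_eq_abs, Real.norm_eq_abs, id, abs_of_pos (by linarith : 0 < T)] at hT
    have := le_abs_self (Real.log T)
    linarith
  have hsm1 : ∀ᶠ T : ℝ in atTop, C1 * (C * N) / Real.log T ≤ 1 / 2 := by
    filter_upwards [hlog.eventually_ge_atTop (2 * (C1 * (C * N)) + 1)] with T hT
    have h0 : 0 ≤ C1 * (C * N) := by positivity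
    rw [div_le_iff₀ (by linarith)]
    linarith
  have hsm2 : ∀ᶠ T : ℝ in atTop, 2 * (C * N) * (Real.log T * Real.exp (-(τ * Real.log T) ^ 2 / 2)) ≤ 1 / 2 :=
    hlog.eventually (tail_ev (C * N) τ hτ)
  filter_upwards [hZq1, hEF, hSM, hE, hMu, hTl, hsm1, hsm2, hlog.eventually_ge_atTop 10, eventually_ge_atTop 1,
    hlow] with T tZ1 tEF tSM tE tMu tT t1 t2 tL tT1 tlow
  intro U1 U2 hefd S hS hSI
  set L := Real.log T with hL
  have hL0 : 0 < L := by linarith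
  have hT0 : 0 < T := by linarith
  have hA0 : 0 ≤ volume.real S := measureReal_nonneg
  have hSf : volume S ≠ ⊤ := ne_top_of_le_ne_top (by simp) (measure_mono hSI)
  have hAT : volume.real S ≤ T := by
    have h1 : volume.real S ≤ volume.real (Set.Icc (T + L) (2 * T - L)) :=
      measureReal_mono hSI (by simp)
    rw [Real.volume_real_Icc_of_le tT] at h1
    linarith
  have hI0 : 0 ≤ ∫ ξ in (-1:ℝ)..1, B ξ ^ 2 :=
    intervalIntegral.integral_nonneg (by norm_num) fun x _ => sq_nonneg _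
  have hER := tE U1 U2 hefd.h1 hefd.h4 (T + L) (2 * T - L) tT
  have hU : 1 ≤ U1 := by linarith [hefd.h1]
  constructor
  · have hblk := blockC hk0 (B := B) (c := c) (ε := εs) (τ := τ) (η := g) (K := C * N) (T := T) (U1 := U1) (U2 := U2)
      Pool.Agent.Y627.SW.t_MN good_zeta hW (by positivity) hεs0 hεs2 hτ hτb hg
      (L := L) (N0 := N0) (κ1 := κ1) (Y0 := Y0) (CS := CS) hL tL tT hU (by linarith)
      (fun t u h1 h2 h3 h4 => (tEF U1 U2 hefd t u h1 h2 h3 h4).trans t1)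
      (fun u hu => (Mu_small hW.cont hW.bd (mul_pos hτ hL0) hL0 hu).trans t2) hCS
      (fun u h3 h4 => tSM U1 U2 hefd u h3 h4) hS hSI
    have hlowS := tlow S hS hSI
    have a6 : ∫ t in S, Dq Rw c B εs τ (4 * τ) T t ≤ (1 + g) * (volume.real S *
        Zq Rw c B εs τ (4 * τ) T + 2 * w * T + C7 * (C * N) ^ 4 / (τ * w) * T) + g * T := by
      refine hlowS.trans (le_of_eq ?_)
      rw [hC7]
      ring
    have b2 : τ * (Real.pi * (q + 4)) ≤ g := hmon _ _ (by positivity) hτm2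
    have b3 : τ * (20 * Real.pi * (q * CS * C ^ 2 * N)) ≤ g := hmon _ _ (by positivity) hτm3
    have b4 : τ * CD ≤ g := hmon _ _ hCD.le hτm4
    have b5 : τ * (C7 * Real.pi ^ 2 * C ^ 4 * N ^ 2) ≤ g ^ 2 := hmon _ _ (by positivity) hτm5
    have hi0 : 0 ≤ ∫ x in (0:ℝ)..1, x * Rw x := by rw [Rw_int]; norm_num
    have hi1 : ∫ x in (0:ℝ)..1, x * Rw x ≤ 1 / 2 := by rw [Rw_int]; norm_num
    have hfin := win_calc (R0 := Rw 0) (r1 := ∫ x in (0:ℝ)..1, x * Rw x) (C := C) (CS := CS) (CD := CD) (C7 := C7)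
      (K := C * N) (q := q) hA0 hAT hN1 hτ (hτa.trans hτ01) hg hg1 (hR0 0) (by rw [Rw_zero]) hi0 hi1 hCD hCS hC hC70
      rfl hεs hε2 hw hM hI0 hW.sq tZ1 a6 hq0 b2 b3 b4 b5 hER hblk
    rw [Rw_zero, Rw_int] at hfin
    refine hfin.trans (le_of_eq ?_)
    ring
  · have hsm0 : ∫ t in (T + L)..(2 * T - L), ‖St B (τ * L) U1 U2 0 t - (Mu B (τ * L) L 0 : ℝ)‖ ^ 2 ≤
        CS * (C * N) ^ 2 * T := by
      have h2 := tSM U1 U2 hefd 0 le_rfl (by nlinarith)
      rw [zero_div, add_zero, mul_one] at h2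
      refine le_trans (le_of_eq ?_) h2
      refine intervalIntegral.integral_congr fun t _ => ?_
      beta_reduce
      congr 3
      simp
    have hblk := blockN (B := B) (K := C * N) (T := T) (U1 := U1) (U2 := U2) (L := L) (N0 := N0) (κ1 := κ1) (Y0 := Y0)
      (CS := CS) hW (by positivity) hτ tL tT (by linarith) hsm0 hS hSI
    have hfin : IsFiniteMeasure (volume.restrict S) := ⟨by
      rw [Measure.restrict_apply_univ]; exact lt_top_iff_ne_top.2 hSf⟩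
    have hX : ∫ t in S, |Sm (fun m => (m:ℝ)) U1 U2 ((N - N0) / (τ * L)) t - M| ≤
        (∫ t in S, |Sm (fun m => (m:ℝ)) U1 U2 ((N - N0) / (τ * L)) t - Mu B (τ * L) L 0|) +
          volume.real S * |Mu B (τ * L) L 0 - M| := by
      have hs := Sm_int (fun m => (m:ℝ)) U1 U2 ((N - N0) / (τ * L)) hSf
      have hc1 : ∀ x : ℝ, IntegrableOn (fun _ : ℝ => x) S := fun x => integrableOn_const hSf
      have hi1 : IntegrableOn (fun t => |Sm (fun m => (m:ℝ)) U1 U2 ((N - N0) / (τ * L)) t - Mu B (τ * L) L 0|) S :=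
        (hs.sub (hc1 _)).abs
      have h1 := setIntegral_mono_on (μ := volume) (s := S)
        (f := fun t => |Sm (fun m => (m:ℝ)) U1 U2 ((N - N0) / (τ * L)) t - M|)
        (g := fun t => |Sm (fun m => (m:ℝ)) U1 U2 ((N - N0) / (τ * L)) t - Mu B (τ * L) L 0| +
          |Mu B (τ * L) L 0 - M|) ((hs.sub (hc1 _)).abs) (hi1.add (hc1 _)) hS (fun t _ => abs_sub_le _ _ _)
      rw [integral_add hi1 (hc1 _), setIntegral_const, smul_eq_mul] at h1
      exact h1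
    have b1 : τ * (Real.pi * (C * (1 + CS))) ≤ g := hmon _ _ (by
      have : 0 < C := by linarith
      positivity) hτm1
    exact num_calc (C := C) (CS := CS) hA0 hAT hN1 hτ hg hC hCS rfl hε2 hM tMu b1 hER hX hblk

end

end Pool.Agent.K4H6.Win
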