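import Pool.Agent.K4H6.Win.Pw

set_option autoImplicit false

/-! Multiplicities in short windows: the pointwise inequality when the zeros are on the line. -/

namespace Pool.Agent.K4H6.Win

open Filter Topology MeasureTheory Complex H370 TH803UC TH803CL Pool.Agent.Y745.SW Pool.Agent.K4H6.Cov

noncomputable section

lemma kt_real {kt : ℂ → ℂ} {R : ℝ → ℝ} (hk0 : Ker kt R) (x : ℝ) : (kt x).im = 0 := by
  obtain ⟨E, _, _, g, hg⟩ := hk0.gram 1
  have h1 := hg 0 x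
  have h2 := hg x 0
  have h3 := inner_conj_symm (𝕜 := ℂ) (g x) (g 0)
  rw [h1, h2] at h3
  simp only [map_zero, sub_zero, Complex.ofReal_one, one_mul, Complex.conj_ofReal, zero_sub] at h3
  rw [hk0.keven] at h3
  exact Complex.conj_eq_iff_im.1 h3

lemma Wf_mono {j : ℕ} {C N : ℝ} {B : ℝ → ℝ} (hC : 0 ≤ C) (h : Wf (j + 1) C N B) : Wf j C N B where
  cont := h.cont
  even := h.even
  bd := h.bd
  zero := h.zero
  sq := h.sq
  real := h.real
  inner := fun z hz => by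
    refine (h.inner z hz).trans ?_
    have h1 : 1 ≤ 1 + (N - |z.re|) := by linarith
    refine div_le_div_of_nonneg_left (by positivity) (by positivity) ?_
    exact pow_le_pow_right₀ h1 (Nat.le_succ j)
  outer := fun z hz => by
    refine (h.outer z hz).trans ?_
    have h1 : 1 ≤ 1 + (|z.re| - N) := by linarith
    refine div_le_div_of_nonneg_left (by positivity) (by positivity) ?_
    exact pow_le_pow_right₀ h1 (Nat.le_succ j)

/-- the window is almost one in the inner zone -/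
lemma vt_inner {j : ℕ} {C N N2 a t x δ : ℝ} {B : ℝ → ℝ} (hC : 0 ≤ C) (hW : Wf (j + 1) C N B) (ha : 0 < a)
    (hN2 : 0 ≤ N2) (hN2a : C ≤ δ * (1 + N2)) (hδ : 0 ≤ δ) (hδ1 : δ ≤ 1 / 2) (hx : |x - t| ≤ (N - N2) / a)
    (ht : (x - t) ^ 2 ≤ δ) : (1 - 2 * δ) ^ 2 ≤ (vt B a t x).re ^ 2 ∧ (vt B a t x).im = 0 ∧ 0 ≤ (vt B a t x).re := by
  obtain ⟨r1, r2, r3⟩ := hW.real (a * (x - t))
  have e1 : vt B a t x = (((VF B ((a * (x - t) : ℝ) : ℂ)).re * Real.exp (-(x - t) ^ 2 / 2) : ℝ) : ℂ) := by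
    unfold vt
    have e2 : ((a : ℂ) * ((x : ℂ) - (t : ℂ))) = ((a * (x - t) : ℝ) : ℂ) := by push_cast; ring
    have e3 : -((x : ℂ) - (t : ℂ)) ^ 2 / 2 = ((-(x - t) ^ 2 / 2 : ℝ) : ℂ) := by push_cast; ring
    have e4 : VF B ((a * (x - t) : ℝ) : ℂ) = ((VF B ((a * (x - t) : ℝ) : ℂ)).re : ℂ) := by
      apply Complex.ext
      · simp
      · rw [r1]; simp
    rw [e2, e3, ← Complex.ofReal_exp, e4]
    push_cast
    rfl
  have h1 : |a * (x - t)| ≤ N - N2 := by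
    rw [abs_mul, abs_of_pos ha]
    rw [le_div_iff₀ ha] at hx
    linarith
  have h2 : 1 - δ ≤ (VF B ((a * (x - t) : ℝ) : ℂ)).re := by
    have h3 := hW.inner ((a * (x - t) : ℝ) : ℂ) (by rw [Complex.ofReal_re]; linarith)
    rw [Complex.ofReal_re, Complex.ofReal_im, abs_zero, Real.exp_zero, mul_one] at h3
    have h4 : 1 + N2 ≤ 1 + (N - |a * (x - t)|) := by linarith
    have h5 : 1 + N2 ≤ (1 + (N - |a * (x - t)|)) ^ (j + 1) :=
      h4.trans (le_self_pow₀ (by linarith) (by omega))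
    have h6 : C / (1 + (N - |a * (x - t)|)) ^ (j + 1) ≤ δ := by
      rw [div_le_iff₀ (by linarith)]
      exact hN2a.trans (mul_le_mul_of_nonneg_left h5 hδ)
    have h7 := Complex.abs_re_le_norm (VF B ((a * (x - t) : ℝ) : ℂ) - 1)
    rw [Complex.sub_re, Complex.one_re] at h7
    linarith [(abs_le.1 (h7.trans (h3.trans h6))).1]
  have h3 : 1 - δ ≤ Real.exp (-(x - t) ^ 2 / 2) := by
    have h4 := Real.add_one_le_exp (-(x - t) ^ 2 / 2)
    linarith
  have h4 : (vt B a t x).re = (VF B ((a * (x - t) : ℝ) : ℂ)).re * Real.exp (-(x - t) ^ 2 / 2) := by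
    rw [e1, Complex.ofReal_re]
  have h5 : (vt B a t x).im = 0 := by rw [e1, Complex.ofReal_im]
  have h6 : 1 - 2 * δ ≤ (vt B a t x).re := by
    rw [h4]
    have h7 : (1 - δ) * (1 - δ) ≤ (VF B ((a * (x - t) : ℝ) : ℂ)).re * Real.exp (-(x - t) ^ 2 / 2) :=
      mul_le_mul h2 h3 (by linarith) r2
    nlinarith
  refine ⟨pow_le_pow_left₀ (by linarith) h6 2, h5, by linarith⟩

lemma sq_re_nonneg {w : ℂ} (h : w.im = 0) : 0 ≤ (w ^ 2).re ∧ (w ^ 2).im = 0 := by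
  rw [sq, Complex.mul_re, Complex.mul_im, h]
  constructor
  · nlinarith [sq_nonneg w.re]
  · ring

/-- the pointwise inequality on the Riemann hypothesis -/
lemma pointR {kt : ℂ → ℂ} {R : ℝ → ℝ} (hk0 : Ker kt R) {U1 U2 : ℝ}
    (hRH : ∀ s ∈ Zf riemannZeta U1 U2, s.re = 1 / 2) {j : ℕ}
    {C N : ℝ} {B : ℝ → ℝ} (hC : 0 ≤ C) (hW : Wf (j + 1) C N B) {a Λ N2 t δ : ℝ} (ha : 0 < a) (hU : 1 ≤ U1)
    (hN2 : 0 ≤ N2) (hN2a : C ≤ δ * (1 + N2)) (hδ : 0 ≤ δ) (hδ1 : δ ≤ 1 / 2)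
    (ht : ((N - N2) / a) ^ 2 ≤ δ) :
    (1 - 2 * δ) ^ 2 * Sm (fun m => (m:ℝ) ^ 2) U1 U2 ((N - N2) / a) t ≤
      2 * ∫ x in (0:ℝ)..1, R x * ‖St B a U1 U2 (Λ * x) t‖ ^ 2 := by
  rw [← t_TRKk hk0 B a t Λ U1 U2 hW.cont hW.even hU, Complex.re_sum]
  unfold Sm
  rw [Finset.mul_sum]
  refine Finset.sum_le_sum fun s hs => ?_
  have him : ∀ s' ∈ Zf riemannZeta U1 U2, (zz s').im = 0 := by
    intro s' hs'
    rw [zz_im, hRH s' hs']
    norm_num
  have hzr : ∀ s' ∈ Zf riemannZeta U1 U2, zz s' = ((s'.im : ℝ) : ℂ) := by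
    intro s' hs'
    apply Complex.ext
    · rw [zz_re, Complex.ofReal_re]
    · rw [him s' hs', Complex.ofReal_im]
  have hvr : ∀ s' ∈ Zf riemannZeta U1 U2, (vt B a t (zz s')).im = 0 ∧ 0 ≤ (vt B a t (zz s')).re := by
    intro s' hs'
    refine ⟨?_, vt_real (Wf_mono hC hW) a t _ (him s' hs')⟩
    have h1 := vt_conj hW.cont hW.even a t (zz s')
    rw [Complex.conj_eq_iff_im.2 (him s' hs')] at h1
    exact Complex.conj_eq_iff_im.1 h1.symm
  have hterm : ∀ s' ∈ Zf riemannZeta U1 U2, 0 ≤ ((mult riemannZeta s : ℂ) * (mult riemannZeta s' : ℂ) *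
      (vt B a t (zz s) * vt B a t (zz s') * kt (Λ * (zz s - zz s')) ^ 2)).re := by
    intro s' hs'
    obtain ⟨a1, a2⟩ := hvr s hs
    obtain ⟨b1, b2⟩ := hvr s' hs'
    have hk : (kt (Λ * (zz s - zz s'))).im = 0 := by
      rw [hzr s hs, hzr s' hs', ← Complex.ofReal_sub, ← Complex.ofReal_mul]
      exact kt_real hk0 _
    obtain ⟨c1, c2⟩ := sq_re_nonneg hk
    have ea : vt B a t (zz s) = ((vt B a t (zz s)).re : ℂ) := by
      apply Complex.ext <;> simp [a1]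
    have eb : vt B a t (zz s') = ((vt B a t (zz s')).re : ℂ) := by
      apply Complex.ext <;> simp [b1]
    have ec : kt (Λ * (zz s - zz s')) ^ 2 = ((kt (Λ * (zz s - zz s')) ^ 2).re : ℂ) := by
      apply Complex.ext
      · simp
      · rw [c2]; simp
    rw [ea, eb, ec]
    have e : ((mult riemannZeta s : ℂ) * (mult riemannZeta s' : ℂ) *
      (((vt B a t (zz s)).re : ℂ) * ((vt B a t (zz s')).re : ℂ) * ((kt (Λ * (zz s - zz s')) ^ 2).re : ℂ))) =
      (((mult riemannZeta s : ℝ) * (mult riemannZeta s' : ℝ) *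
      ((vt B a t (zz s)).re * (vt B a t (zz s')).re * (kt (Λ * (zz s - zz s')) ^ 2).re) : ℝ) : ℂ) := by
      push_cast; ring
    rw [e, Complex.ofReal_re]
    positivity
  rw [Complex.re_sum]
  refine le_trans ?_ (Finset.single_le_sum (f := fun s' => ((mult riemannZeta s : ℂ) * (mult riemannZeta s' : ℂ) *
      (vt B a t (zz s) * vt B a t (zz s') * kt (Λ * (zz s - zz s')) ^ 2)).re) hterm hs)
  beta_reduce
  by_cases h : |s.im - t| ≤ (N - N2) / a
  · rw [if_pos h, sub_self, mul_zero, hk0.kzero, one_pow, mul_one]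
    have hsq : (s.im - t) ^ 2 ≤ δ := by
      refine le_trans ?_ ht
      rw [← sq_abs (s.im - t)]
      exact pow_le_pow_left₀ (abs_nonneg _) h 2
    obtain ⟨v1, v2, v3⟩ := vt_inner hC hW ha hN2 hN2a hδ hδ1 h hsq
    rw [hzr s hs]
    have ea : vt B a t ((s.im : ℝ) : ℂ) = ((vt B a t ((s.im : ℝ) : ℂ)).re : ℂ) := by
      apply Complex.ext <;> simp [v2]
    rw [ea]
    have e : ((mult riemannZeta s : ℂ) * (mult riemannZeta s : ℂ) *
      (((vt B a t ((s.im : ℝ) : ℂ)).re : ℂ) * ((vt B a t ((s.im : ℝ) : ℂ)).re : ℂ))) =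
      (((mult riemannZeta s : ℝ) ^ 2 * (vt B a t ((s.im : ℝ) : ℂ)).re ^ 2 : ℝ) : ℂ) := by
      push_cast; ring
    rw [e, Complex.ofReal_re, mul_comm]
    exact mul_le_mul_of_nonneg_left v1 (by positivity)
  · rw [if_neg h, mul_zero]
    exact hterm s hs

end

end Pool.Agent.K4H6.Win
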