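import Pool.Agent.K4H6.Win.Co
import Pool.Agent.K4H6.Win.Bg
import Pool.Agent.K4H6.Win.Rh
import Pool.Agent.K4H6.Win.Sh
import Pool.Agent.K4H6.Win.Cb

set_option autoImplicit false

/-! Multiplicities in short windows: the main estimate when the zeros are on the line. -/

namespace Pool.Agent.K4H6.Win

open Filter Topology MeasureTheory Complex H370 TH803UC TH803CL Pool.Agent.Y745.SW Pool.Agent.K4H6.Cov

noncomputable section

lemma calcR {g A T M X : ℝ} (hg : 0 < g) (hg1 : g ≤ 1 / 1000) (hAT : A ≤ T) (hA : 0 ≤ A) (hM : 0 ≤ M) (hX0 : 0 ≤ X)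
    (h : (1 - 2 * g) ^ 2 * X ≤ A * (13 / 6 * M) + 30 * g * (T * M)) :
    X ≤ A * (13 / 6 * M) + 45 * g * (T * M) := by
  have h1 : X ≤ (1 + 5 * g) * ((1 - 2 * g) ^ 2 * X) := by
    have h2 : 1 ≤ (1 + 5 * g) * (1 - 2 * g) ^ 2 := by nlinarith [sq_nonneg g]
    have h3 := mul_le_mul_of_nonneg_right h2 hX0
    linarith
  have h2 : (1 + 5 * g) * ((1 - 2 * g) ^ 2 * X) ≤ (1 + 5 * g) * (A * (13 / 6 * M) + 30 * g * (T * M)) :=
    mul_le_mul_of_nonneg_left h (by linarith)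
  have h3 : A * M ≤ T * M := mul_le_mul_of_nonneg_right hAT hM
  have h4 : 0 ≤ T * M := mul_nonneg (hA.trans hAT) hM
  have h5 : g * (A * M) ≤ g * (T * M) := mul_le_mul_of_nonneg_left h3 hg.le
  have h6 : g * (g * (T * M)) ≤ 1 / 1000 * (g * (T * M)) :=
    mul_le_mul_of_nonneg_right hg1 (by positivity)
  nlinarith

/-- the main estimate when the zeros are on the line -/
theorem coreR {g : ℝ} (hg : 0 < g) (hg1 : g ≤ 1 / 1000) :
    ∃ τm N N2 : ℝ, 0 < τm ∧ 1 ≤ N ∧ 0 ≤ N2 ∧ N2 ≤ g * N ∧ ∀ τ : ℝ, 0 < τ → τ ≤ τm →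
      ∀ (c : ℕ → ℂ) (C0 : ℝ), (∀ n, ‖c n‖ ≤ ArithmeticFunction.vonMangoldt n) →
      ∀ᶠ T : ℝ in atTop, ∀ U1 U2 : ℝ, EFD c C0 T U1 U2 → (∀ s ∈ Zf riemannZeta U1 U2, s.re = 1 / 2) →
        ∀ S : Set ℝ, MeasurableSet S → S ⊆ Set.Icc (T + Real.log T) (2 * T - Real.log T) →
        ∫ t in S, Sm (fun m => (m:ℝ) ^ 2) U1 U2 ((N - N2) / (τ * Real.log T)) t ≤
          volume.real S * (13 / 6 * (N / (Real.pi * τ))) + 45 * g * (T * (N / (Real.pi * τ))) := by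
  classical
  have a_EF : P_EF := Pool.Agent.Y228.SW.t_EF
  obtain ⟨CS, hCS, hSM⟩ : P_SM := Pool.Agent.Y274.SW.t_SM Pool.Agent.Y840.SW.t_MVB a_EF
  obtain ⟨C, hC, hB⟩ := Pool.Agent.Y248.SW.t_KER (0 + 1)
  have hk0 := ker_w
  have hRc := hk0.rcont
  have hR0 := hk0.rnonneg
  have hRm := hk0.rle
  obtain ⟨KR, hKR0, hKR⟩ := hk0.rlip
  obtain ⟨CD, hCD, hDF⟩ := Pool.Agent.Y240.SW.t_DF Rw hRc (fun x _ => hR0 x) ⟨KR, hKR⟩
  have hpi := Real.pi_pos
  have h1c := Pool.Agent.Y274.SW.c1_pos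
  set ε2 : ℝ := g / (10 * Real.pi) with hε2
  have hε20 : 0 < ε2 := by positivity
  obtain ⟨N2, hN2⟩ : ∃ N2 : ℝ, N2 = C / g := ⟨_, rfl⟩
  obtain ⟨N, hNd⟩ : ∃ N : ℝ, N = C / g ^ 2 := ⟨_, rfl⟩
  have hC0 : 0 < C := by linarith
  have hN2p : 0 < N2 := by rw [hN2]; positivity
  have hN2N : N2 = g * N := by rw [hN2, hNd]; field_simp
  have hN1 : 1 ≤ N := by
    rw [hNd, le_div_iff₀ (by positivity)]
    nlinarith
  have hN2a : C ≤ g * (1 + N2) := by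
    have : g * N2 = C := by rw [hN2]; field_simp
    nlinarith
  obtain ⟨B, hW⟩ := hB N hN1
  set εs : ℝ := g with hεs
  set q : ℝ := (1 + 1 / g) * (2 * Rw 0) with hq
  have hq0 : 0 ≤ q := mul_nonneg (by positivity) (mul_nonneg (by norm_num) (hR0 0))
  have hN0' : 0 < N := by linarith
  set C7 : ℝ := 72 * Pool.Agent.Y274.SW.c1 ^ 2 * Rw 0 ^ 2 with hC7
  have hC70 : 0 ≤ C7 := by positivity
  -- the range of `τ`
  obtain ⟨τm, hτm, hτma, hτmb, hτm1, hτm2, hτm3, hτm4, hτm5⟩ : ∃ τm : ℝ, 0 < τm ∧ τm ≤ 1 ∧ τm ≤ εs / 4 ∧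
      τm * (Real.pi * (C * (1 + CS))) ≤ g ∧ τm * (Real.pi * (q + 4)) ≤ g ∧
      τm * (20 * Real.pi * (q * CS * C ^ 2 * N)) ≤ g ∧ τm * CD ≤ g ∧
      τm * (C7 * Real.pi ^ 2 * C ^ 4 * N ^ 2) ≤ g ^ 2 := by
    exact tau_choice one_pos (by positivity) hg (by linarith) (by positivity) (by positivity) (by positivity)
      (by positivity) (by positivity)
  refine ⟨τm, N, N2, hτm, hN1, hN2p.le, hN2N.le, ?_⟩
  intro τ hτ hττ c C0 hc
  have hτb : τ ≤ εs / 4 := hττ.trans hτmb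
  have hεs0 : 0 < εs := hg
  have hεs2 : εs < 1 / 2 := by linarith
  have hmon : ∀ x y : ℝ, 0 ≤ x → τm * x ≤ y → τ * x ≤ y := fun x y hx h =>
    (mul_le_mul_of_nonneg_right hττ hx).trans h
  have hZq1 := Zq_le (c := c) hW.cont (ε := εs) (τ := τ) (ηs := 4 * τ) hεs0 hεs2 hτ hτb
    le_rfl (by linarith) Pool.Agent.Y240.SW.t_DF hRc (fun x _ => hR0 x) ⟨KR, hKR⟩ hW.even hc hDF
  obtain ⟨C1, hC1, hEF⟩ := a_EF εs τ hεs0 hεs2 hτ hτb c C0
  have hEF := hEF B (C * N) hW.cont hW.even hW.bd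
  have hSM := hSM εs τ hεs0 hεs2 hτ hτb c C0 B (C * N) hW.cont hW.even hW.bd
  set M : ℝ := N / (Real.pi * τ) with hM
  have hM0 : 0 < M := by positivity
  set w : ℝ := g * M with hw
  have hw0 : 0 < w := by positivity
  have hlow := low Pool.Agent.Y840.SW.t_MVB hRc (fun y => hR0 y) (fun y => hRm y) Rw_van hc hW.cont hW.bd hεs0 hεs2
    hτ hτb hg hw0
  have hlog := Real.tendsto_log_atTop
  have hTl : ∀ᶠ T : ℝ in atTop, T + Real.log T ≤ 2 * T - Real.log T := by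
    have h1 := Real.isLittleO_log_id_atTop.def (c := 1 / 2) (by norm_num)
    filter_upwards [h1, eventually_ge_atTop 1] with T hT hT1
    rw [Real.norm_eq_abs, Real.norm_eq_abs, id, abs_of_pos (by linarith : 0 < T)] at hT
    have := le_abs_self (Real.log T)
    linarith
  have hsm1 : ∀ᶠ T : ℝ in atTop, C1 * (C * N) / Real.log T ≤ 1 / 2 := by
    filter_upwards [hlog.eventually_ge_atTop (2 * (C1 * (C * N)) + 1)] with T hT
    have h0 : 0 ≤ C1 * (C * N) := by positivity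
    rw [div_le_iff₀ (by linarith)]
    linarith
  have hsm2 : ∀ᶠ T : ℝ in atTop, 2 * (C * N) * (Real.log T * Real.exp (-(τ * Real.log T) ^ 2 / 2)) ≤ 1 / 2 :=
    hlog.eventually (tail_ev (C * N) τ hτ)
  have hsm3 : ∀ᶠ T : ℝ in atTop, ((N - N2) / (τ * Real.log T)) ^ 2 ≤ g := by
    have h1 : Tendsto (fun L : ℝ => ((N - N2) / τ / L) ^ 2) atTop (𝓝 0) := by
      have h2 : Tendsto (fun L : ℝ => (N - N2) / τ / L) atTop (𝓝 0) :=
        tendsto_const_nhds.div_atTop tendsto_id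
      simpa using h2.pow 2
    filter_upwards [hlog.eventually (h1.eventually_le_const hg)] with T hT
    rwa [div_div] at hT
  filter_upwards [hZq1, hEF, hSM, hTl, hsm1, hsm2, hlog.eventually_ge_atTop 10, eventually_ge_atTop 1,
    hlow, hsm3] with T tZ1 tEF tSM tT t1 t2 tL tT1 tlow t3
  intro U1 U2 hefd hRH S hS hSI
  set L := Real.log T with hL
  have hL0 : 0 < L := by linarith
  have hT0 : 0 < T := by linarith
  have hA0 : 0 ≤ volume.real S := measureReal_nonneg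
  have hSf : volume S ≠ ⊤ := ne_top_of_le_ne_top (by simp) (measure_mono hSI)
  have hAT : volume.real S ≤ T := by
    have h1 : volume.real S ≤ volume.real (Set.Icc (T + L) (2 * T - L)) :=
      measureReal_mono hSI (by simp)
    rw [Real.volume_real_Icc_of_le tT] at h1
    linarith
  have hI0 : 0 ≤ ∫ ξ in (-1:ℝ)..1, B ξ ^ 2 :=
    intervalIntegral.integral_nonneg (by norm_num) fun x _ => sq_nonneg _
  have hU : 1 ≤ U1 := by linarith [hefd.h1]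
  have hX : IntegrableOn (fun t => (1 - 2 * g) ^ 2 * Sm (fun m => (m:ℝ) ^ 2) U1 U2 ((N - N2) / (τ * L)) t) S :=
    (Sm_int _ _ _ _ hSf).const_mul _
  have hblk := blockG hk0 (B := B) (c := c) (ε := εs) (τ := τ) (η := g) (K := C * N) (T := T) (U1 := U1) (U2 := U2)
    Pool.Agent.Y627.SW.t_MN hW (by positivity) hεs0 hεs2 hτ hτb hg
    (L := L) (CS := CS) hL tL tT
    (fun t u h1 h2 h3 h4 => (tEF U1 U2 hefd t u h1 h2 h3 h4).trans t1)
    (fun u hu => (Mu_small hW.cont hW.bd (mul_pos hτ hL0) hL0 hu).trans t2) hCS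
    (fun u h3 h4 => tSM U1 U2 hefd u h3 h4) hS hSI hX (fun t _ => by
      exact pointR hk0 hRH (C := C) hC0.le hW (mul_pos hτ hL0) hU hN2p.le hN2a hg.le (by linarith) t3)
  have hlowS := tlow S hS hSI
  have a6 : ∫ t in S, Dq Rw c B εs τ (4 * τ) T t ≤ (1 + g) * (volume.real S *
      Zq Rw c B εs τ (4 * τ) T + 2 * w * T + C7 * (C * N) ^ 4 / (τ * w) * T) + g * T := by
    refine hlowS.trans (le_of_eq ?_)
    rw [hC7]
    ring
  have b2 : τ * (Real.pi * (q + 4)) ≤ g := hmon _ _ (by positivity) hτm2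
  have b3 : τ * (20 * Real.pi * (q * CS * C ^ 2 * N)) ≤ g := hmon _ _ (by positivity) hτm3
  have b4 : τ * CD ≤ g := hmon _ _ hCD.le hτm4
  have b5 : τ * (C7 * Real.pi ^ 2 * C ^ 4 * N ^ 2) ≤ g ^ 2 := hmon _ _ (by positivity) hτm5
  have hi0 : 0 ≤ ∫ x in (0:ℝ)..1, x * Rw x := by rw [Rw_int]; norm_num
  have hi1 : ∫ x in (0:ℝ)..1, x * Rw x ≤ 1 / 2 := by rw [Rw_int]; norm_num
  have hER : (0:ℝ) ≤ ε2 * (N / τ * T) := by positivity
  obtain ⟨X0, hX0⟩ : ∃ X0 : ℝ, X0 = ∫ t in S, (1 - 2 * g) ^ 2 * Sm (fun m => (m:ℝ) ^ 2) U1 U2 ((N - N2) / (τ * L)) t :=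
    ⟨_, rfl⟩
  rw [← hX0] at hblk
  have hfin := win_calc (X := X0) (R0 := Rw 0) (r1 := ∫ x in (0:ℝ)..1, x * Rw x) (C := C) (CS := CS) (CD := CD) (C7 := C7)
    (K := C * N) (q := q) (ER := 0) hA0 hAT hN1 hτ (hττ.trans hτma) hg hg1 (hR0 0) (by rw [Rw_zero]) hi0 hi1 hCD hCS
    hC hC70 rfl hεs hε2 hw hM hI0 hW.sq tZ1 a6 hq0 b2 b3 b4 b5 hER (by rw [mul_zero, add_zero]; exact hblk)
  rw [Rw_zero, Rw_int, hX0, integral_const_mul] at hfin
  refine calcR hg hg1 hAT hA0 hM0.le ?_ (hfin.trans (le_of_eq (by ring)))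
  refine integral_nonneg fun t => ?_
  unfold Sm
  exact Finset.sum_nonneg fun s _ => by split_ifs <;> positivity

/-- **multiplicities in short windows**, local form, when the zeros are on the line -/
theorem winR {ε : ℝ} (hε : 0 < ε) (hε1 : ε ≤ 1) : ∃ h0 : ℝ, 0 < h0 ∧ ∀ᶠ T : ℝ in atTop,
    ∃ U1 U2 : ℝ, T ≤ U1 ∧ U1 ≤ T + 1 ∧ 2 * T - 1 ≤ U2 ∧ U2 ≤ 2 * T ∧
    ((∀ s ∈ Zf riemannZeta U1 U2, s.re = 1 / 2) → ∀ H : ℝ, h0 / Real.log T ≤ H →
    ∃ Bd : Set ℝ, volume Bd ≤ ENNReal.ofReal (ε / 8 * T) ∧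
      ∀ t : ℝ, T + 3 * Real.log T ≤ t → t + H ≤ 2 * T - 3 * Real.log T → t ∉ Bd →
        Gm (fun m => (m:ℝ) ^ 2) U1 U2 H t ≤ (13 / 6 + ε) * (H * Real.log T / (2 * Real.pi))) := by
  have hpi := Real.pi_pos
  obtain ⟨g, hgd⟩ : ∃ g : ℝ, g = ε ^ 2 / 1000 := ⟨_, rfl⟩
  have hg : 0 < g := by rw [hgd]; positivity
  have hg1 : g ≤ 1 / 1000 := by
    rw [hgd]
    have : ε ^ 2 ≤ 1 := by nlinarith
    linarith
  obtain ⟨τ, N, N0, hτ, hN, hN0, hN0g, hcore⟩ := coreR (half_pos hg) (by linarith)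
  obtain ⟨c, hc, C0, T0, hC0, hT0, hef⟩ := explicit_formula good_zeta
  have hcore := hcore τ hτ le_rfl c C0 hc
  obtain ⟨ν, hν⟩ : ∃ ν : ℝ, ν = N - N0 := ⟨_, rfl⟩
  have hνN : (1 - g) * N ≤ ν := by
    rw [hν]
    have : g / 2 * N ≤ g * N := mul_le_mul_of_nonneg_right (by linarith) (by linarith)
    linarith
  have hν0 : 0 < ν := lt_of_lt_of_le (mul_pos (by linarith) (by linarith)) hνN
  have hνle : ν ≤ N := by rw [hν]; linarith
  refine ⟨3 * ν / (τ * g), by positivity, ?_⟩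
  filter_upwards [hcore, eventually_ge_atTop T0, eventually_gt_atTop 0,
    Real.tendsto_log_atTop.eventually_ge_atTop 10, Real.tendsto_log_atTop.eventually_ge_atTop (ν / τ)] with
    T tc tT0 tpos tL tν
  obtain ⟨U1, U2, hU1, hU1', hU2, hU2', heft⟩ := hef T tT0
  refine ⟨U1, U2, hU1, hU1', hU2, hU2', fun hRH H hH => ?_⟩
  have hefd : EFD c C0 T U1 U2 := ⟨hc, hU1, hU1', hU2, hU2', heft⟩
  have tc := tc U1 U2 hefd hRH
  rw [← hν] at tc
  set L := Real.log T with hL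
  have hL0 : 0 < L := by linarith
  obtain ⟨r, hr⟩ : ∃ r : ℝ, r = ν / (τ * L) := ⟨_, rfl⟩
  have hr0 : 0 < r := by rw [hr]; positivity
  have hrL : r ≤ L := by
    have h1 : r ≤ ν / τ := by
      rw [hr]
      refine div_le_div_of_nonneg_left hν0.le hτ ?_
      nlinarith
    linarith
  rw [← hr] at tc
  obtain ⟨M, hM⟩ : ∃ M : ℝ, M = N / (Real.pi * τ) := ⟨_, rfl⟩
  have hM0 : 0 < M := by rw [hM]; positivity
  rw [← hM] at tc
  have h3 : 3 * r ≤ g * H := by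
    have h4 : g * (3 * ν / (τ * g) / L) ≤ g * H := mul_le_mul_of_nonneg_left hH hg.le
    have h5 : g * (3 * ν / (τ * g) / L) = 3 * r := by rw [hr]; field_simp
    linarith
  have hH0 : 0 < H := by
    by_contra hneg
    have : g * H ≤ 0 := mul_nonpos_of_nonneg_of_nonpos hg.le (not_lt.1 hneg)
    linarith
  set E := H * L / (2 * Real.pi) with hE
  have hE0 : 0 < E := by positivity
  obtain ⟨κ, hκd⟩ : ∃ κ : ℝ, κ = N / ν := ⟨_, rfl⟩
  have hκ : H * M = 2 * r * E * κ := by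
    rw [hM, hr, hE, hκd]
    field_simp
  have hκ1 : κ ≤ 1 + 2 * g := by
    rw [hκd, div_le_iff₀ hν0]
    have h4 : (1 + 2 * g) * ((1 - g) * N) ≤ (1 + 2 * g) * ν := mul_le_mul_of_nonneg_left hνN (by linarith)
    have h5 : 1 ≤ (1 + 2 * g) * (1 - g) := by nlinarith
    have h6 : 1 * N ≤ (1 + 2 * g) * (1 - g) * N := mul_le_mul_of_nonneg_right h5 (by linarith)
    linarith
  set J : Set ℝ := Set.Icc (T + 3 * L) (2 * T - 3 * L - H) with hJ
  set SC : Set ℝ := J ∩ {t | (13 / 6 + ε) * E < Gm (fun m => (m:ℝ) ^ 2) U1 U2 H t} with hSC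
  have mC : MeasurableSet SC := measurableSet_Icc.inter (measurableSet_lt measurable_const (Gm_meas _ _ _ _))
  have fJ : ∀ S : Set ℝ, S ⊆ J → volume S ≠ ⊤ := fun S hS =>
    ne_top_of_le_ne_top (by simp [hJ]) (measure_mono hS)
  have sC : SC ⊆ J := Set.inter_subset_left
  have vC : volume.real SC ≤ ε / 8 * T := by
    have h4 := long_C (f := fun m => (m:ℝ) ^ 2) (fun m => by positivity) (U1 := U1) (U2 := U2) (H := H) (r := r)
      (A := volume.real SC * (13 / 6 * M) + 30 * g * (T * M)) (T1 := T + L) (T2 := 2 * T - L) hr0 hH0.le mC sC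
      (fun S' h5 h6 h7 => by
        have h8 := tc S' h5 h6
        rw [h7] at h8
        have h9 : 0 ≤ g * (T * M) := by positivity
        linarith) (by linarith) (by linarith)
    have h5 := setIntegral_mono_on (μ := volume) (s := SC) (f := fun _ => (13 / 6 + ε) * E)
      (g := fun t => Gm (fun m => (m:ℝ) ^ 2) U1 U2 H t) (integrableOn_const (fJ _ sC)) (Gm_int _ _ _ _ (fJ _ sC)) mC
      (fun t ht => ht.2.le)
    rw [setIntegral_const, smul_eq_mul] at h5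
    exact calcC hε hε1 hg hgd.le measureReal_nonneg tpos.le hr0 hE0 hM0.le hκ hκ1 h3 h5 h4
  refine ⟨SC, ?_, ?_⟩
  · rw [← ENNReal.ofReal_toReal (fJ _ sC)]
    exact ENNReal.ofReal_le_ofReal vC
  · intro t ht1 ht2 ht
    have htJ : t ∈ J := ⟨ht1, by linarith⟩
    by_contra hcon
    exact ht ⟨htJ, not_le.1 hcon⟩

end

end Pool.Agent.K4H6.Win
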