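import Pool.Agent.K4H6.Win.Tq
import Pool.Agent.Y833.SW.Di
import Pool.Agent.K4H6.Cov.KerDef

set_option autoImplicit false

/-! Multiplicities in short windows: the local inequality. -/

open scoped BigOperators ComplexConjugate

namespace Pool.Agent.K4H6.Win

open H370 TH803UC TH803CL Pool.Agent.Y745.SW Pool.Agent.Y833.SW Pool.Agent.K4H6.Cov

/-- the square of the multiplicity, linear from three on -/
noncomputable def ph (m : ℕ) : ℝ := if m ≤ 3 then (m : ℝ) ^ 2 else 6 * m - 9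

lemma ph_nonneg (m : ℕ) : 0 ≤ ph m := by
  unfold ph
  split_ifs with h
  · positivity
  · have : (4 : ℝ) ≤ m := by exact_mod_cast (by omega : 4 ≤ m)
    linarith

lemma ph_off {m : ℕ} (h : 1 ≤ m) : 2 * ph m ≤ 12 * m - 9 := by
  unfold ph
  split_ifs with h3
  · have h1 : (1 : ℝ) ≤ m := by exact_mod_cast h
    have h2 : (m : ℝ) ≤ 3 := by exact_mod_cast h3
    nlinarith
  · linarith

lemma split_real2 (Z : Finset ℂ) (hZ : ∀ z ∈ Z, (starRingEnd ℂ) z ∈ Z) (m : ℂ → ℕ)
    (hmc : ∀ z ∈ Z, m ((starRingEnd ℂ) z) = m z) (G : ℂ → ℝ) (hG : ∀ z ∈ Z, G ((starRingEnd ℂ) z) = G z) :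
    ∑ z ∈ Z, (m z : ℝ) * G z = ∑ z ∈ Z.filter (fun z => 0 ≤ z.im), cw m z * G z := by
  have h := split_upper Z hZ m hmc (fun z => (G z : ℂ))
  apply Complex.ofReal_injective
  push_cast
  rw [h]
  refine Finset.sum_congr rfl fun z hz => ?_
  rw [hG z (Finset.mem_filter.1 hz).1]
  ring

/-- one zero in the active zone -/
lemma one_act {m : ℕ} {c x d v e : ℝ} (hm : 1 ≤ m) (h : (c = m ∧ d = (if m ≤ 3 then (m:ℝ) else 3) ∧ x = ph m) ∨
    (c = 2 * m ∧ d = 3 ∧ x = 2 * ph m)) (hv : 1 - e ≤ v) (he : 0 ≤ e) :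
    x - 6 * (c * e) ≤ 2 * (d * (c * v)) - d ^ 2 := by
  have h1 : (1 : ℝ) ≤ m := by exact_mod_cast hm
  have hd0 : 0 ≤ d := by
    rcases h with ⟨-, h, -⟩ | ⟨-, h, -⟩
    · rw [h]; split_ifs <;> linarith
    · rw [h]; norm_num
  have hd3 : d ≤ 3 := by
    rcases h with ⟨-, h, -⟩ | ⟨-, h, -⟩
    · rw [h]
      split_ifs with h4
      · exact_mod_cast h4
      · norm_num
    · rw [h]
  have hc0 : 0 ≤ c := by
    rcases h with ⟨h, -, -⟩ | ⟨h, -, -⟩ <;> rw [h] <;> linarith
  have h2 : x ≤ 2 * (d * c) - d ^ 2 := by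
    rcases h with ⟨hc, hd, hx⟩ | ⟨hc, hd, hx⟩
    · rw [hc, hd, hx]
      unfold ph
      split_ifs with h4
      · linarith [sq (m:ℝ)]
      · linarith
    · rw [hc, hd, hx]
      have := ph_off hm
      linarith
  have h3 : d * (c * (1 - e)) ≤ d * (c * v) := by gcongr
  have h4 : d * (c * e) ≤ 3 * (c * e) := by gcongr
  have h5 : d * (c * (1 - e)) = d * c - d * (c * e) := by ring
  linarith

/-- **the local inequality** -/
theorem loc {kt : ℂ → ℂ} {R : ℝ → ℝ} (hk0 : Ker kt R) (Z : Finset ℂ) (m : ℂ → ℕ) (v : ℂ → ℂ) (th : ℝ → ℝ)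
    (Λ L t : ℝ) (hZ : ∀ z ∈ Z, (starRingEnd ℂ) z ∈ Z) (hm1 : ∀ z ∈ Z, 1 ≤ m z)
    (hmc : ∀ z ∈ Z, m ((starRingEnd ℂ) z) = m z) (hv : ∀ z, v ((starRingEnd ℂ) z) = (starRingEnd ℂ) (v z))
    (hr : ∀ z : ℂ, z.im = 0 → 0 ≤ (v z).re) (hΛ : 0 ≤ Λ) (hΛL : Λ ≤ L) :
    ∑ z ∈ Z, (if |z.re - t| ≤ th |z.im| then ph (m z) else 0) ≤
      (∑ z ∈ Z, ∑ w ∈ Z, (m z : ℂ) * (m w : ℂ) * (v z * v w * kt (Λ * (z - w)) ^ 2)).re +
      6 * ∑ z ∈ Z, (m z : ℝ) * ((if |z.re - t| ≤ th |z.im| then ‖1 - v z‖ else 0) +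
        (if |z.re - t| ≤ th |z.im| then 0 else ‖v z‖ * Real.exp (|z.im| * L))) := by
  obtain ⟨om, hom2, homc, homre⟩ := exists_om v hv hr
  obtain ⟨E, _, _, g, hg⟩ := hk0.gram Λ
  set K : ℂ → ℂ → ℂ := fun z w => om z * om w * kt (Λ * (z - w)) with hK
  have hk : ∀ z w, inner ℂ (om z • g z) (om w • g w) = K ((starRingEnd ℂ) z) w := by
    intro z w
    rw [inner_smul_left, inner_smul_right, hg]
    simp only [hK]
    rw [homc, ← hk0.keven (Λ * ((starRingEnd ℂ) z - w))]
    have : -(Λ * ((starRingEnd ℂ) z - w)) = Λ * (w - (starRingEnd ℂ) z) := by ring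
    rw [this]; ring
  have hsym : ∀ z w, K z w = K w z := by
    intro z w
    simp only [hK]
    rw [← hk0.keven (Λ * (z - w))]
    have : -(Λ * (z - w)) = Λ * (w - z) := by ring
    rw [this]; ring
  have hKK : ∀ z, K z z = v z := by
    intro z
    simp only [hK]
    rw [sub_self, mul_zero, hk0.kzero, mul_one, ← sq, hom2]
  have hn2 : ∀ z, ‖om z‖ * ‖om z‖ = ‖v z‖ := by
    intro z
    rw [← norm_mul, ← sq, hom2]
  have hnc : ∀ z, ‖om ((starRingEnd ℂ) z)‖ = ‖om z‖ := by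
    intro z; rw [homc, RCLike.norm_conj]
  have hKb : ∀ z, (K ((starRingEnd ℂ) z) z).re ≤ ‖v z‖ * Real.exp (|z.im| * L) := by
    intro z
    refine (Complex.re_le_norm _).trans ?_
    simp only [hK]
    rw [norm_mul, norm_mul, hnc, hn2]
    exact mul_le_mul_of_nonneg_left (hk0.im_le Λ L z hΛ hΛL) (norm_nonneg _)
  have hpair : (∑ z ∈ Z, ∑ w ∈ Z, (m z : ℂ) * (m w : ℂ) * (v z * v w * kt (Λ * (z - w)) ^ 2)).re =
      (∑ z ∈ Z, ∑ w ∈ Z, (m z : ℂ) * (m w : ℂ) * (K z w) ^ 2).re := by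
    congr 1
    refine Finset.sum_congr rfl fun z _ => Finset.sum_congr rfl fun w _ => ?_
    simp only [hK]
    rw [← hom2 z, ← hom2 w]
    ring
  rw [hpair]
  set P := Z.filter (fun z => 0 ≤ z.im) with hP
  obtain ⟨d, hd⟩ : ∃ d : ℂ → ℝ, d = fun z => if |z.re - t| ≤ th |z.im| then
    (if z.im = 0 ∧ m z ≤ 3 then (m z : ℝ) else 3) else 0 := ⟨_, rfl⟩
  have hd3 : ∀ z, d z ≤ 3 := by
    intro z
    rw [hd]
    beta_reduce
    split_ifs with h1 h2
    · exact_mod_cast h2.2
    · norm_num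
    · norm_num
  have hmain := trace_q K (fun z => om z • g z) hk hsym Z hZ m hmc (q := 3) (by norm_num) d hd3
  rw [← hP] at hmain
  set cost : ℂ → ℝ := fun z => (if |z.re - t| ≤ th |z.im| then ‖1 - v z‖ else 0) +
        (if |z.re - t| ≤ th |z.im| then 0 else ‖v z‖ * Real.exp (|z.im| * L)) with hcost
  set S : ℂ → ℝ := fun z => if |z.re - t| ≤ th |z.im| then ph (m z) else 0 with hS
  have e1 : ∑ z ∈ Z, S z = ∑ z ∈ P, cw m z * (S z / m z) := by
    rw [← split_real2 Z hZ m hmc (fun z => S z / m z)]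
    · refine Finset.sum_congr rfl fun z hz => ?_
      have : (m z : ℝ) ≠ 0 := by
        have := hm1 z hz
        positivity
      field_simp
    · intro z hz
      simp only [hS, Complex.conj_re, Complex.conj_im, abs_neg]
      rw [hmc z hz]
  have e2 : ∑ z ∈ Z, (m z : ℝ) * cost z = ∑ z ∈ P, cw m z * cost z := by
    refine split_real2 Z hZ m hmc _ fun z _ => ?_
    have h1 : ‖1 - v ((starRingEnd ℂ) z)‖ = ‖1 - v z‖ := by
      rw [hv, ← map_one (starRingEnd ℂ), ← map_sub, RCLike.norm_conj, map_one]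
    have h2 : ‖v ((starRingEnd ℂ) z)‖ = ‖v z‖ := by
      rw [hv, RCLike.norm_conj]
    simp only [hcost, Complex.conj_re, Complex.conj_im, abs_neg]
    rw [h1, h2]
  rw [e1, e2]
  have key : ∀ z ∈ P, cw m z * (S z / m z) - 6 * (cw m z * cost z) ≤
      2 * (d z * (cw m z * (K z z).re)) - d z ^ 2 -
        (3 - d z) * (cw m z * ((K ((starRingEnd ℂ) z) z).re - (K z z).re)) := by
    intro z hz
    obtain ⟨hzZ, hz0⟩ := Finset.mem_filter.1 hz
    have hm0 := hm1 z hzZ
    have hmR : (m z : ℝ) ≠ 0 := by positivity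
    have hcw0 := cw_nonneg m z
    rw [hKK]
    by_cases hact : |z.re - t| ≤ th |z.im|
    · have hcst : cost z = ‖1 - v z‖ := by
        simp only [hcost]
        rw [if_pos hact, if_pos hact, add_zero]
      have hSz : S z = ph (m z) := by
        simp only [hS]
        rw [if_pos hact]
      have hre : 1 - ‖1 - v z‖ ≤ (v z).re := (re_v (v z)).1
      rw [hcst, hSz]
      by_cases him : z.im = 0
      · have hc : (starRingEnd ℂ) z = z := Complex.conj_eq_iff_im.mpr him
        have hcw : cw m z = m z := by unfold cw; rw [if_pos him]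
        rw [hc, hKK, sub_self, mul_zero, mul_zero, sub_zero, hcw]
        have hdz : d z = (if m z ≤ 3 then (m z : ℝ) else 3) := by
          rw [hd]
          beta_reduce
          rw [if_pos hact]
          simp only [him, true_and]
        have h1 := one_act (c := m z) (x := ph (m z)) (d := d z) hm0 (Or.inl ⟨rfl, hdz, rfl⟩) hre (norm_nonneg _)
        have h2 : (m z : ℝ) * (ph (m z) / m z) = ph (m z) := by field_simp
        rw [h2]
        exact h1
      · have hcw : cw m z = 2 * m z := by unfold cw; rw [if_neg him]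
        have hdz : d z = 3 := by
          rw [hd]
          beta_reduce
          rw [if_pos hact, if_neg (fun h => him h.1)]
        have h1 := one_act (c := 2 * m z) (x := 2 * ph (m z)) (d := d z) hm0 (Or.inr ⟨rfl, hdz, rfl⟩) hre
          (norm_nonneg _)
        have h2 : (2 * m z : ℝ) * (ph (m z) / m z) = 2 * ph (m z) := by field_simp
        rw [hcw, h2]
        rw [hdz] at h1 ⊢
        norm_num at h1 ⊢
        linarith
    · have hcst : cost z = ‖v z‖ * Real.exp (|z.im| * L) := by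
        simp only [hcost]
        rw [if_neg hact, if_neg hact, zero_add]
      have hSz : S z = 0 := by
        simp only [hS]
        rw [if_neg hact]
      have hdz : d z = 0 := by
        rw [hd]
        beta_reduce
        rw [if_neg hact]
      rw [hcst, hSz, hdz]
      have h1 := hKb z
      have hL0 : 0 ≤ L := hΛ.trans hΛL
      have h2 : ‖v z‖ * 1 ≤ ‖v z‖ * Real.exp (|z.im| * L) :=
        mul_le_mul_of_nonneg_left (Real.one_le_exp (mul_nonneg (abs_nonneg _) hL0)) (norm_nonneg _)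
      have h3 : -‖v z‖ ≤ (v z).re := (abs_le.1 (Complex.abs_re_le_norm (v z))).1
      have h4 : (K ((starRingEnd ℂ) z) z).re - (v z).re ≤ 2 * (‖v z‖ * Real.exp (|z.im| * L)) := by linarith
      have h5 := mul_le_mul_of_nonneg_left h4 hcw0
      rw [zero_div, mul_zero]
      linarith
  have hsum := Finset.sum_le_sum key
  rw [Finset.sum_sub_distrib, ← Finset.mul_sum] at hsum
  rw [Finset.sum_sub_distrib, Finset.sum_sub_distrib, ← Finset.mul_sum] at hsum
  linarith

end Pool.Agent.K4H6.Win
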