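import Pool.Agent.K4H6.Win.Co
import Pool.Agent.K4H6.Win.Sh
import Pool.Agent.K4H6.Win.Cb

set_option autoImplicit false

/-! Multiplicities in short windows: the exceptional set. -/

namespace Pool.Agent.K4H6.Win

open Filter Topology MeasureTheory Complex H370 TH803UC TH803CL Pool.Agent.Y745.SW Pool.Agent.K4H6.Cov

noncomputable section

/-- **multiplicities in short windows**, local form -/
theorem winMain {ε : ℝ} (hε : 0 < ε) (hε1 : ε ≤ 1) : ∃ h0 : ℝ, 0 < h0 ∧ ∀ᶠ T : ℝ in atTop,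
    ∃ U1 U2 : ℝ, T ≤ U1 ∧ U1 ≤ T + 1 ∧ 2 * T - 1 ≤ U2 ∧ U2 ≤ 2 * T ∧ ∀ H : ℝ, h0 / Real.log T ≤ H →
    ∃ Bd : Set ℝ, volume Bd ≤ ENNReal.ofReal (ε / 4 * T) ∧
      ∀ t : ℝ, T + 3 * Real.log T ≤ t → t + H ≤ 2 * T - 3 * Real.log T → t ∉ Bd →
        |Gm (fun m => m) U1 U2 H t - H * Real.log T / (2 * Real.pi)| ≤ ε * (H * Real.log T / (2 * Real.pi)) ∧
        Gm ph U1 U2 H t ≤ (13 / 6 + ε) * (H * Real.log T / (2 * Real.pi)) := by
  have hpi := Real.pi_pos
  obtain ⟨g, hgd⟩ : ∃ g : ℝ, g = ε ^ 2 / 1000 := ⟨_, rfl⟩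
  have hg : 0 < g := by rw [hgd]; positivity
  have hg1 : g ≤ 1 / 1000 := by
    rw [hgd]
    have : ε ^ 2 ≤ 1 := by nlinarith
    linarith
  obtain ⟨τ, N, N0, hτ, hN, hN0, hN0g, hcore⟩ := coreW hg hg1
  obtain ⟨c, hc, C0, T0, hC0, hT0, hef⟩ := explicit_formula good_zeta
  have hcore := hcore τ hτ le_rfl c C0 hc
  obtain ⟨ν, hν⟩ : ∃ ν : ℝ, ν = N - N0 := ⟨_, rfl⟩
  have hνN : (1 - g) * N ≤ ν := by rw [hν]; linarith
  have hν0 : 0 < ν := lt_of_lt_of_le (mul_pos (by linarith) (by linarith)) hνN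
  have hνle : ν ≤ N := by rw [hν]; linarith
  refine ⟨3 * ν / (τ * g), by positivity, ?_⟩
  filter_upwards [hcore, eventually_ge_atTop T0, eventually_gt_atTop 0,
    Real.tendsto_log_atTop.eventually_ge_atTop 10, Real.tendsto_log_atTop.eventually_ge_atTop (ν / τ)] with
    T tc tT0 tpos tL tν
  obtain ⟨U1, U2, hU1, hU1', hU2, hU2', heft⟩ := hef T tT0
  refine ⟨U1, U2, hU1, hU1', hU2, hU2', fun H hH => ?_⟩
  have hefd : EFD c C0 T U1 U2 := ⟨hc, hU1, hU1', hU2, hU2', heft⟩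
  have tc := tc U1 U2 hefd
  rw [← hν] at tc
  set L := Real.log T with hL
  have hL0 : 0 < L := by linarith
  obtain ⟨r, hr⟩ : ∃ r : ℝ, r = ν / (τ * L) := ⟨_, rfl⟩
  have hr0 : 0 < r := by rw [hr]; positivity
  have hrL : r ≤ L := by
    have h1 : r ≤ ν / τ := by
      rw [hr]
      refine div_le_div_of_nonneg_left hν0.le hτ ?_
      nlinarith
    linarith
  rw [← hr] at tc
  obtain ⟨M, hM⟩ : ∃ M : ℝ, M = N / (Real.pi * τ) := ⟨_, rfl⟩
  have hM0 : 0 < M := by rw [hM]; positivity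
  rw [← hM] at tc
  have h3 : 3 * r ≤ g * H := by
    have h4 : g * (3 * ν / (τ * g) / L) ≤ g * H := mul_le_mul_of_nonneg_left hH hg.le
    have h5 : g * (3 * ν / (τ * g) / L) = 3 * r := by rw [hr]; field_simp
    linarith
  have hH0 : 0 < H := by
    by_contra hneg
    have : g * H ≤ 0 := mul_nonpos_of_nonneg_of_nonpos hg.le (not_lt.1 hneg)
    linarith
  have h2r : 2 * r ≤ H := by nlinarith
  set E := H * L / (2 * Real.pi) with hE
  have hE0 : 0 < E := by positivity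
  obtain ⟨κ, hκd⟩ : ∃ κ : ℝ, κ = N / ν := ⟨_, rfl⟩
  have hκ : H * M = 2 * r * E * κ := by
    rw [hM, hr, hE, hκd]
    field_simp
  have hκ1 : κ ≤ 1 + 2 * g := by
    rw [hκd, div_le_iff₀ hν0]
    have h4 : (1 + 2 * g) * ((1 - g) * N) ≤ (1 + 2 * g) * ν := mul_le_mul_of_nonneg_left hνN (by linarith)
    have h5 : 1 ≤ (1 + 2 * g) * (1 - g) := by nlinarith
    have h6 : 1 * N ≤ (1 + 2 * g) * (1 - g) * N := mul_le_mul_of_nonneg_right h5 (by linarith)
    linarith
  have hκ0 : 1 ≤ κ := by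
    rw [hκd, le_div_iff₀ hν0]
    linarith
  set J : Set ℝ := Set.Icc (T + 3 * L) (2 * T - 3 * L - H) with hJ
  set SC : Set ℝ := J ∩ {t | (13 / 6 + ε) * E < Gm ph U1 U2 H t} with hSC
  set SN : Set ℝ := J ∩ {t | ε * E < |Gm (fun m => m) U1 U2 H t - E|} with hSN
  have mC : MeasurableSet SC := measurableSet_Icc.inter (measurableSet_lt measurable_const (Gm_meas _ _ _ _))
  have mN : MeasurableSet SN := measurableSet_Icc.inter
    (measurableSet_lt measurable_const ((Gm_meas _ _ _ _).sub_const _).abs)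
  have fJ : ∀ S : Set ℝ, S ⊆ J → volume S ≠ ⊤ := fun S hS =>
    ne_top_of_le_ne_top (by simp [hJ]) (measure_mono hS)
  have sC : SC ⊆ J := Set.inter_subset_left
  have sN : SN ⊆ J := Set.inter_subset_left
  have vC : volume.real SC ≤ ε / 8 * T := by
    have h4 := long_C (f := ph) ph_nonneg (U1 := U1) (U2 := U2) (H := H) (r := r)
      (A := volume.real SC * (13 / 6 * M) + 30 * g * (T * M)) (T1 := T + L) (T2 := 2 * T - L) hr0 hH0.le mC sC
      (fun S' h5 h6 h7 => by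
        have h8 := (tc S' h5 h6).1
        rw [h7] at h8
        exact h8) (by linarith) (by linarith)
    have h5 := setIntegral_mono_on (μ := volume) (s := SC) (f := fun _ => (13 / 6 + ε) * E)
      (g := fun t => Gm ph U1 U2 H t) (integrableOn_const (fJ _ sC)) (Gm_int _ _ _ _ (fJ _ sC)) mC
      (fun t ht => ht.2.le)
    rw [setIntegral_const, smul_eq_mul] at h5
    exact calcC hε hε1 hg hgd.le measureReal_nonneg tpos.le hr0 hE0 hM0.le hκ hκ1 h3 h5 h4
  have vN : volume.real SN ≤ ε / 8 * T := by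
    have h4 := long_N (U1 := U1) (U2 := U2) (H := H) (r := r) (M := M)
      (A := 3 * g * (T * M)) (T1 := T + L) (T2 := 2 * T - L) hr0 h2r hM0.le mN sN
      (fun S' h5 h6 _ => (tc S' h5 h6).2) (by linarith) (by linarith)
    have h5 := setIntegral_mono_on (μ := volume) (s := SN) (f := fun _ => 2 * r * ((ε - 2 * g) * E))
      (g := fun t => |2 * r * Gm (fun m => (m:ℝ)) U1 U2 H t - H * M|) (integrableOn_const (fJ _ sN))
      ((((Gm_int _ _ _ _ (fJ _ sN)).const_mul _).sub (integrableOn_const (fJ _ sN))).abs) mN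
      (fun t ht => by
        have h6 : ε * E < |Gm (fun m => (m:ℝ)) U1 U2 H t - E| := ht.2
        rw [hκ]
        have e : 2 * r * Gm (fun m => (m:ℝ)) U1 U2 H t - 2 * r * E * κ =
            2 * r * ((Gm (fun m => (m:ℝ)) U1 U2 H t - E) - (κ - 1) * E) := by ring
        rw [e, abs_mul, abs_of_pos (by positivity : 0 < 2 * r)]
        refine mul_le_mul_of_nonneg_left ?_ (by positivity)
        have h7 := abs_sub_abs_le_abs_sub (Gm (fun m => (m:ℝ)) U1 U2 H t - E) ((κ - 1) * E)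
        rw [abs_of_nonneg (mul_nonneg (by linarith) hE0.le)] at h7
        have h8 : (κ - 1) * E ≤ 2 * g * E := mul_le_mul_of_nonneg_right (by linarith) hE0.le
        linarith)
    rw [setIntegral_const, smul_eq_mul] at h5
    exact calcN hε hε1 hg hgd.le measureReal_nonneg tpos.le hr0 hE0 hM0.le hκ hκ1 h3 h5 h4
  refine ⟨SC ∪ SN, ?_, ?_⟩
  · refine (measure_union_le _ _).trans ?_
    rw [← ENNReal.ofReal_toReal (fJ _ sC), ← ENNReal.ofReal_toReal (fJ _ sN),
      ← ENNReal.ofReal_add ENNReal.toReal_nonneg ENNReal.toReal_nonneg]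
    refine ENNReal.ofReal_le_ofReal ?_
    have h4 : (volume SC).toReal + (volume SN).toReal ≤ ε / 8 * T + ε / 8 * T := add_le_add vC vN
    linarith
  · intro t ht1 ht2 ht
    have htJ : t ∈ J := ⟨ht1, by linarith⟩
    constructor
    · by_contra hcon
      exact ht (Or.inr ⟨htJ, not_le.1 hcon⟩)
    · by_contra hcon
      exact ht (Or.inl ⟨htJ, not_le.1 hcon⟩)

end

end Pool.Agent.K4H6.Win
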