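import Pool.Agent.K4H6.Win.Dm
import Pool.Agent.K4H6.Cov.Trk
import Pool.Agent.Y745.SW.Blk5

set_option autoImplicit false

/-! Multiplicities in short windows: the pointwise inequalities for zeta. -/

namespace Pool.Agent.K4H6.Win

open Filter Topology MeasureTheory Complex H370 TH803UC TH803CL Pool.Agent.Y745.SW Pool.Agent.K4H6.Cov

noncomputable section

/-- the cost of a zero -/
def er (B : ℝ → ℝ) (a N N0 κ1 Y0 L : ℝ) (t : ℝ) (z : ℂ) : ℝ :=
  err B a N N0 κ1 Y0 L 0 (if Y0 ≤ |z.im| * L then 1 else 0) t z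

/-- the total cost -/
def Er (B : ℝ → ℝ) (a N N0 κ1 Y0 L U1 U2 : ℝ) (t : ℝ) : ℝ :=
  ∑ s ∈ Zf riemannZeta U1 U2, (mult riemannZeta s : ℝ) * er B a N N0 κ1 Y0 L t (zz s)

/-- the sum of a function of the multiplicities of the zeros near `t` -/
def Sm (f : ℕ → ℝ) (U1 U2 r t : ℝ) : ℝ :=
  ∑ s ∈ Zf riemannZeta U1 U2, if |s.im - t| ≤ r then f (mult riemannZeta s) else 0

lemma er_eq (B : ℝ → ℝ) (a N N0 κ1 Y0 L t : ℝ) (z : ℂ) : er B a N N0 κ1 Y0 L t z =
    (if |z.re - t| ≤ th a N N0 κ1 Y0 L |z.im| then 2 * ‖1 - vt B a t z‖ + (if Y0 ≤ |z.im| * L then 1 else 0) else 0) +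
    (if |z.re - t| ≤ th a N N0 κ1 Y0 L |z.im| then 0 else 2 * ‖vt B a t z‖ * Real.exp (|z.im| * L)) := by
  unfold er err
  rw [mul_zero, add_zero, sub_zero]

lemma zone_act {a N N0 κ1 Y0 L t : ℝ} {z : ℂ} (ha : 0 < a) (hN0 : 0 ≤ N0) (h : |z.re - t| ≤ (N - N0) / a) :
    |z.re - t| ≤ th a N N0 κ1 Y0 L |z.im| := by
  unfold th
  split_ifs with h1
  · exact h
  · refine h.trans ?_
    have := Real.exp_pos (κ1 * (|z.im| * L))
    gcongr
    linarith

/-- the pointwise inequality for the multiplicities -/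
lemma pointC {kt : ℂ → ℂ} {R : ℝ → ℝ} (hk0 : Ker kt R) (hζ : GoodL riemannZeta) {j : ℕ}
    {C N : ℝ} {B : ℝ → ℝ} (hW : Wf j C N B) {a L Λ N0 κ1 Y0 t U1 U2 : ℝ} (ha : 0 < a) (hU : 1 ≤ U1) (hΛ : 0 ≤ Λ)
    (hΛL : Λ ≤ L) (hN0 : 0 ≤ N0) :
    Sm ph U1 U2 ((N - N0) / a) t ≤ 2 * (∫ x in (0:ℝ)..1, R x * ‖St B a U1 U2 (Λ * x) t‖ ^ 2) +
      3 * Er B a N N0 κ1 Y0 L U1 U2 t := by
  classical
  set Z := (Zf riemannZeta U1 U2).image zz with hZ
  set m : ℂ → ℕ := fun z => mult riemannZeta (1 / 2 + I * z) with hm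
  set th' : ℝ → ℝ := th a N N0 κ1 Y0 L with hth
  have hconj := Zconj' hζ (A := U1) (B := U2) hU
  have hmc := Zmc' hζ (A := U1) (B := U2) hU
  have hmain := loc hk0 Z m (vt B a t) th' Λ L t hconj (Zpos' hζ hU) hmc
    (fun z => vt_conj hW.cont hW.even a t z) (fun z hz => vt_real hW a t z hz) hΛ hΛL
  have e2 : ∑ z ∈ Z, ∑ w ∈ Z, (m z : ℂ) * (m w : ℂ) * (vt B a t z * vt B a t w * kt (Λ * (z - w)) ^ 2) =
      ∑ s ∈ Zf riemannZeta U1 U2, ∑ s' ∈ Zf riemannZeta U1 U2, (mult riemannZeta s : ℂ) * (mult riemannZeta s' : ℂ) *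
      (vt B a t (zz s) * vt B a t (zz s') * kt (Λ * (zz s - zz s')) ^ 2) := by
    rw [hZ, Finset.sum_image (fun s _ s' _ h => zz_inj h)]
    refine Finset.sum_congr rfl fun s _ => ?_
    rw [Finset.sum_image (fun s _ s' _ h => zz_inj h)]
    refine Finset.sum_congr rfl fun s' _ => ?_
    simp only [hm]
    rw [zz_back', zz_back']
  rw [e2, t_TRKk hk0 B a t Λ U1 U2 hW.cont hW.even hU] at hmain
  have e3 : 6 * ∑ z ∈ Z, (m z : ℝ) * ((if |z.re - t| ≤ th' |z.im| then ‖1 - vt B a t z‖ else 0) +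
        (if |z.re - t| ≤ th' |z.im| then 0 else ‖vt B a t z‖ * Real.exp (|z.im| * L))) ≤
      3 * Er B a N N0 κ1 Y0 L U1 U2 t := by
    rw [hZ, Finset.sum_image (fun s _ s' _ h => zz_inj h)]
    unfold Er
    rw [Finset.mul_sum, Finset.mul_sum]
    refine Finset.sum_le_sum fun s _ => ?_
    simp only [hm]
    rw [zz_back', er_eq]
    have h1 : ((if |(zz s).re - t| ≤ th' |(zz s).im| then ‖1 - vt B a t (zz s)‖ else 0) +
        (if |(zz s).re - t| ≤ th' |(zz s).im| then 0 else ‖vt B a t (zz s)‖ * Real.exp (|(zz s).im| * L))) * 2 ≤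
        (if |(zz s).re - t| ≤ th' |(zz s).im| then 2 * ‖1 - vt B a t (zz s)‖ +
          (if Y0 ≤ |(zz s).im| * L then 1 else 0) else 0) +
        (if |(zz s).re - t| ≤ th' |(zz s).im| then 0 else 2 * ‖vt B a t (zz s)‖ * Real.exp (|(zz s).im| * L)) := by
      split_ifs <;> linarith
    have h2 := mul_le_mul_of_nonneg_left h1 (by positivity : 0 ≤ 3 * (mult riemannZeta s : ℝ))
    linarith
  have e4 : Sm ph U1 U2 ((N - N0) / a) t ≤ ∑ z ∈ Z, (if |z.re - t| ≤ th' |z.im| then ph (m z) else 0) := by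
    rw [hZ, Finset.sum_image (fun s _ s' _ h => zz_inj h)]
    unfold Sm
    refine Finset.sum_le_sum fun s _ => ?_
    simp only [hm]
    rw [zz_back']
    have h0 := ph_nonneg (mult riemannZeta s)
    by_cases h : |s.im - t| ≤ (N - N0) / a
    · rw [if_pos h, if_pos]
      rw [← zz_re] at h
      exact zone_act ha hN0 h
    · rw [if_neg h]
      split_ifs <;> linarith
  linarith

/-- the pointwise inequality for the number of zeros -/
lemma pointN {B : ℝ → ℝ} {a L N N0 κ1 Y0 t U1 U2 : ℝ} (ha : 0 < a) (hN0 : 0 ≤ N0) (hL : 0 ≤ L) :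
    |Sm (fun m => m) U1 U2 ((N - N0) / a) t - (St B a U1 U2 0 t).re| ≤ Er B a N N0 κ1 Y0 L U1 U2 t := by
  have e1 : (St B a U1 U2 0 t).re = ∑ s ∈ Zf riemannZeta U1 U2, (mult riemannZeta s : ℝ) * (vt B a t (zz s)).re := by
    unfold St
    rw [Complex.re_sum]
    refine Finset.sum_congr rfl fun s _ => ?_
    simp
  rw [e1]
  unfold Sm Er
  rw [← Finset.sum_sub_distrib]
  refine (Finset.abs_sum_le_sum_abs _ _).trans (Finset.sum_le_sum fun s _ => ?_)
  have hm0 : (0:ℝ) ≤ mult riemannZeta s := Nat.cast_nonneg _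
  have e2 : (if |s.im - t| ≤ (N - N0) / a then (mult riemannZeta s : ℝ) else 0) -
      (mult riemannZeta s : ℝ) * (vt B a t (zz s)).re = (mult riemannZeta s : ℝ) *
      ((if |s.im - t| ≤ (N - N0) / a then (1:ℝ) else 0) - (vt B a t (zz s)).re) := by
    split_ifs <;> ring
  rw [e2, abs_mul, abs_of_nonneg hm0]
  refine mul_le_mul_of_nonneg_left ?_ hm0
  rw [er_eq]
  have hre := Complex.abs_re_le_norm (vt B a t (zz s))
  have hre1 := Complex.abs_re_le_norm (1 - vt B a t (zz s))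
  rw [Complex.sub_re, Complex.one_re] at hre1
  have hexp : 1 ≤ Real.exp (|(zz s).im| * L) := Real.one_le_exp (mul_nonneg (abs_nonneg _) hL)
  have hn0 := norm_nonneg (vt B a t (zz s))
  have hn1 := norm_nonneg (1 - vt B a t (zz s))
  by_cases h : |s.im - t| ≤ (N - N0) / a
  · have hact : |(zz s).re - t| ≤ th a N N0 κ1 Y0 L |(zz s).im| := zone_act ha hN0 (by rw [zz_re]; exact h)
    rw [if_pos h, if_pos hact, if_pos hact]
    split_ifs <;> linarith
  · rw [if_neg h, zero_sub, abs_neg]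
    by_cases hact : |(zz s).re - t| ≤ th a N N0 κ1 Y0 L |(zz s).im|
    · have hY : Y0 ≤ |(zz s).im| * L := by
        by_contra hY
        apply h
        unfold th at hact
        rw [if_pos (not_le.1 hY), zz_re] at hact
        exact hact
      rw [if_pos hact, if_pos hact, if_pos hY]
      have h1 : ‖vt B a t (zz s)‖ ≤ 1 + ‖1 - vt B a t (zz s)‖ := by
        have := norm_sub_le (1:ℂ) (1 - vt B a t (zz s))
        rw [sub_sub_cancel, norm_one] at this
        exact this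
      linarith
    · rw [if_neg hact, if_neg hact]
      have h1 : ‖vt B a t (zz s)‖ * 1 ≤ ‖vt B a t (zz s)‖ * Real.exp (|(zz s).im| * L) :=
        mul_le_mul_of_nonneg_left hexp hn0
      linarith

end

end Pool.Agent.K4H6.Win
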