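import Pool.Agent.K4H6.Win.Bk

set_option autoImplicit false

/-! Multiplicities in short windows: from one length to all larger lengths. -/

namespace Pool.Agent.K4H6.Win

open Filter Topology MeasureTheory Complex H370

noncomputable section

/-- the sum of a function of the multiplicities over the zeros in `(t, t + H]` -/
def Gm (f : ℕ → ℝ) (U1 U2 H t : ℝ) : ℝ :=
  ∑ s ∈ Zf riemannZeta U1 U2, if t < s.im ∧ s.im ≤ t + H then f (mult riemannZeta s) else 0

lemma Gm_meas (f : ℕ → ℝ) (U1 U2 H : ℝ) : Measurable (fun t : ℝ => Gm f U1 U2 H t) := by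
  unfold Gm
  refine Finset.measurable_sum _ fun s _ => ?_
  have hm : MeasurableSet {t : ℝ | t < s.im ∧ s.im ≤ t + H} :=
    (measurableSet_lt measurable_id measurable_const).inter
      (measurableSet_le measurable_const (measurable_id.add_const H))
  exact Measurable.ite hm measurable_const measurable_const

lemma Gm_int (f : ℕ → ℝ) (U1 U2 H : ℝ) {S : Set ℝ} (hSf : volume S ≠ ⊤) :
    IntegrableOn (fun t : ℝ => Gm f U1 U2 H t) S := by
  unfold Gm
  refine integrable_finsetSum _ fun s _ => ?_
  have hm : MeasurableSet {t : ℝ | t < s.im ∧ s.im ≤ t + H} :=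
    (measurableSet_lt measurable_id measurable_const).inter
      (measurableSet_le measurable_const (measurable_id.add_const H))
  have h1 : IntegrableOn (fun _ : ℝ => f (mult riemannZeta s)) S := integrableOn_const hSf
  have h2 := h1.indicator hm
  refine h2.congr (Filter.Eventually.of_forall fun t => ?_)
  beta_reduce
  by_cases h : t < s.im ∧ s.im ≤ t + H
  · rw [if_pos h, Set.indicator_of_mem (by exact h)]
  · rw [if_neg h, Set.indicator_of_notMem (by exact h)]

/-- one term of the short sums, integrated over the position -/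
lemma term_ind (y r t : ℝ) (c : ℝ) : (fun x : ℝ => if |y - (t + x)| ≤ r then c else 0) =
    (Set.Icc (y - t - r) (y - t + r)).indicator (fun _ => c) := by
  ext x
  by_cases h : |y - (t + x)| ≤ r
  · rw [if_pos h, Set.indicator_of_mem]
    rw [abs_le] at h
    constructor <;> linarith [h.1, h.2]
  · rw [if_neg h, Set.indicator_of_notMem]
    intro hx
    apply h
    rw [abs_le]
    constructor <;> linarith [hx.1, hx.2]

lemma term_ii (y r t c a b : ℝ) : IntervalIntegrable (fun x : ℝ => if |y - (t + x)| ≤ r then c else 0) volume a b := by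
  rw [term_ind]
  have h1 : IntervalIntegrable (fun _ : ℝ => c) volume a b := intervalIntegrable_const
  exact ⟨h1.1.indicator measurableSet_Icc, h1.2.indicator measurableSet_Icc⟩

lemma term_full {y r t c a b : ℝ} (hr : 0 ≤ r) (hab : a ≤ b) (h1 : a < y - t - r) (h2 : y - t + r ≤ b) :
    ∫ x in a..b, (if |y - (t + x)| ≤ r then c else 0) = c * (2 * r) := by
  rw [term_ind, intervalIntegral.integral_of_le hab, setIntegral_indicator measurableSet_Icc,
    Set.inter_eq_self_of_subset_right (Set.Icc_subset_Ioc h1 h2), setIntegral_const, smul_eq_mul,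
    Real.volume_real_Icc_of_le (by linarith)]
  ring

lemma term_le {y r t c a b : ℝ} (hr : 0 ≤ r) (hc : 0 ≤ c) (hab : a ≤ b) :
    ∫ x in a..b, (if |y - (t + x)| ≤ r then c else 0) ≤ c * (2 * r) := by
  rw [term_ind, intervalIntegral.integral_of_le hab, setIntegral_indicator measurableSet_Icc,
    setIntegral_const, smul_eq_mul, mul_comm]
  refine mul_le_mul_of_nonneg_left ?_ hc
  refine (measureReal_mono Set.inter_subset_right (by simp)).trans ?_
  rw [Real.volume_real_Icc_of_le (by linarith)]
  linarith

lemma term_zero {y r t c a b : ℝ} (hab : a ≤ b) (h : y - t + r ≤ a ∨ b < y - t - r) :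
    ∫ x in a..b, (if |y - (t + x)| ≤ r then c else 0) = 0 := by
  rw [term_ind, intervalIntegral.integral_of_le hab, setIntegral_indicator measurableSet_Icc]
  have : Set.Ioc a b ∩ Set.Icc (y - t - r) (y - t + r) = ∅ := by
    ext x
    constructor
    · rintro ⟨⟨h1, h2⟩, h3, h4⟩
      rcases h with h | h <;> linarith
    · intro h
      exact absurd h (Set.notMem_empty x)
  rw [this]
  simp

lemma term_nonneg {y r t c a b : ℝ} (hc : 0 ≤ c) (hab : a ≤ b) :
    0 ≤ ∫ x in a..b, (if |y - (t + x)| ≤ r then c else 0) :=
  intervalIntegral.integral_nonneg hab fun x _ => by split_ifs <;> simp [hc]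

/-- the long sums are at most the average of the short ones -/
lemma Gm_le {f : ℕ → ℝ} (hf : ∀ m, 0 ≤ f m) {U1 U2 H t r : ℝ} (hr : 0 < r) (hH : 0 ≤ H) :
    2 * r * Gm f U1 U2 H t ≤ ∫ x in (-r - r)..(H + r), Sm f U1 U2 r (t + x) := by
  unfold Gm Sm
  rw [intervalIntegral.integral_finsetSum (fun s _ => term_ii s.im r t _ _ _), Finset.mul_sum]
  refine Finset.sum_le_sum fun s _ => ?_
  split_ifs with h
  · rw [term_full hr.le (by linarith) (by linarith [h.1]) (by linarith [h.2])]
    linarith
  · rw [mul_zero]
    exact term_nonneg (hf _) (by linarith)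

/-- the long sums are at least the average of the short ones -/
lemma le_Gm {f : ℕ → ℝ} (hf : ∀ m, 0 ≤ f m) {U1 U2 H t r : ℝ} (hr : 0 < r) (hH : 2 * r ≤ H) :
    ∫ x in r..(H - r), Sm f U1 U2 r (t + x) ≤ 2 * r * Gm f U1 U2 H t := by
  unfold Gm Sm
  rw [intervalIntegral.integral_finsetSum (fun s _ => term_ii s.im r t _ _ _), Finset.mul_sum]
  refine Finset.sum_le_sum fun s _ => ?_
  split_ifs with h
  · refine (term_le hr.le (hf _) (by linarith)).trans (le_of_eq ?_)
    ring
  · rw [mul_zero]
    refine le_of_eq (term_zero (by linarith) ?_)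
    by_cases h1 : t < s.im
    · have h2 : t + H < s.im := by
        by_contra h3
        exact h ⟨h1, not_lt.1 h3⟩
      right; linarith
    · left; linarith [not_lt.1 h1]

end

end Pool.Agent.K4H6.Win
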