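import Pool.Agent.TH803.UC.Trace

set_option autoImplicit false

/-! Multiplicities in short windows: the trace inequality with a larger test operator. -/

open scoped BigOperators ComplexConjugate

namespace Pool.Agent.K4H6.Win

open H370 TH803UC

/-- the trace inequality, the entries of the test operator are at most `q` -/
theorem trace_q {E : Type*} [NormedAddCommGroup E] [InnerProductSpace ℂ E]
    (K : ℂ → ℂ → ℂ) (k : ℂ → E) (hk : ∀ z w, inner ℂ (k z) (k w) = K ((starRingEnd ℂ) z) w)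
    (hsym : ∀ z w, K z w = K w z)
    (Z : Finset ℂ) (hZ : ∀ z ∈ Z, (starRingEnd ℂ) z ∈ Z) (m : ℂ → ℕ)
    (hmc : ∀ z ∈ Z, m ((starRingEnd ℂ) z) = m z) {q : ℝ} (hq : 0 < q)
    (d : ℂ → ℝ) (hd2 : ∀ z, d z ≤ q) :
    2 * ∑ z ∈ Z.filter (fun z => 0 ≤ z.im), d z * (cw m z * (K z z).re) -
        ∑ z ∈ Z.filter (fun z => 0 ≤ z.im), (d z) ^ 2 ≤
      (∑ z ∈ Z, ∑ w ∈ Z, (m z : ℂ) * (m w : ℂ) * (K z w) ^ 2).re +
        ∑ z ∈ Z.filter (fun z => 0 ≤ z.im), (q - d z) *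
          (cw m z * ((K ((starRingEnd ℂ) z) z).re - (K z z).re)) := by
  obtain ⟨r, hr⟩ : ∃ r : ℝ, r = 2 / q := ⟨_, rfl⟩
  have hr0 : 0 < r := by rw [hr]; positivity
  have hrq : r * q = 2 := by rw [hr]; field_simp
  have h1 := trace_w (fun z w => (r : ℂ) * K z w) (fun z => ((Real.sqrt r : ℝ) : ℂ) • k z) (by
    intro z w
    rw [inner_smul_left, inner_smul_right, hk, Complex.conj_ofReal, ← mul_assoc, ← Complex.ofReal_mul,
      Real.mul_self_sqrt hr0.le]) (by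
    intro z w
    beta_reduce
    rw [hsym]) Z hZ m hmc (fun z => r * d z) (by
    intro z
    beta_reduce
    rw [← hrq]
    exact mul_le_mul_of_nonneg_left (hd2 z) hr0.le)
  beta_reduce at h1
  have e1 : (∑ z ∈ Z, ∑ w ∈ Z, (m z : ℂ) * (m w : ℂ) * ((r : ℂ) * K z w) ^ 2).re =
      r ^ 2 * (∑ z ∈ Z, ∑ w ∈ Z, (m z : ℂ) * (m w : ℂ) * (K z w) ^ 2).re := by
    rw [← Complex.re_ofReal_mul, Finset.mul_sum]
    congr 1
    refine Finset.sum_congr rfl fun z _ => ?_
    rw [Finset.mul_sum]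
    refine Finset.sum_congr rfl fun w _ => ?_
    push_cast
    ring
  have e2 : ∑ z ∈ Z.filter (fun z => 0 ≤ z.im), r * d z * (cw m z * ((r : ℂ) * K z z).re) =
      r ^ 2 * ∑ z ∈ Z.filter (fun z => 0 ≤ z.im), d z * (cw m z * (K z z).re) := by
    rw [Finset.mul_sum]
    refine Finset.sum_congr rfl fun z _ => ?_
    rw [Complex.re_ofReal_mul]
    ring
  have e3 : ∑ z ∈ Z.filter (fun z => 0 ≤ z.im), (r * d z) ^ 2 =
      r ^ 2 * ∑ z ∈ Z.filter (fun z => 0 ≤ z.im), (d z) ^ 2 := by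
    rw [Finset.mul_sum]
    refine Finset.sum_congr rfl fun z _ => ?_
    ring
  have e4 : ∑ z ∈ Z.filter (fun z => 0 ≤ z.im), (4 - 2 * (r * d z)) *
          (cw m z / 2 * (((r : ℂ) * K ((starRingEnd ℂ) z) z).re - ((r : ℂ) * K z z).re)) =
      r ^ 2 * ∑ z ∈ Z.filter (fun z => 0 ≤ z.im), (q - d z) *
          (cw m z * ((K ((starRingEnd ℂ) z) z).re - (K z z).re)) := by
    rw [Finset.mul_sum]
    refine Finset.sum_congr rfl fun z _ => ?_
    rw [Complex.re_ofReal_mul, Complex.re_ofReal_mul]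
    have : (4 - 2 * (r * d z)) = 2 * r * (q - d z) := by
      have : 2 * r * (q - d z) = 2 * (r * q) - 2 * (r * d z) := by ring
      rw [this, hrq]
      ring
    rw [this]
    ring
  rw [e1, e2, e3, e4] at h1
  have h2 : 0 < r ^ 2 := by positivity
  refine le_of_mul_le_mul_left ?_ h2
  linarith

end Pool.Agent.K4H6.Win
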